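import Pool.Agent.ShorRec.Elim

/-!
Affine recurrences: the parameters are determined by the first seven row sums.
-/

namespace Pool.Agent.ShorRec

set_option linter.all false

theorem affine_core {s : ℕ → ℕ → ℂ} {a b c d e f : ℂ}
    (h00 : s 0 0 = 1) (hz0 : ∀ m, s (m + 1) 0 = 0) (hz : ∀ m n, m < n → s m n = 0)
    (hrec : ∀ m n : ℕ, s (m + 1) (n + 1) =
      (a + b * m + c * (n + 1)) * s m (n + 1) + (d + e * m + f * (n + 1)) * s m n)
    (T1 : s 1 1 = 1)
    (T2 : s 2 1 + s 2 2 = 4)
    (T3 : s 3 1 + s 3 2 + s 3 3 = 27)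
    (T4 : s 4 1 + s 4 2 + s 4 3 + s 4 4 = 256)
    (T5 : s 5 1 + s 5 2 + s 5 3 + s 5 4 + s 5 5 = 3125)
    (T6 : s 6 1 + s 6 2 + s 6 3 + s 6 4 + s 6 5 + s 6 6 = 46656)
    (T7 : s 7 1 + s 7 2 + s 7 3 + s 7 4 + s 7 5 + s 7 6 + s 7 7 = 823543) :
    a = 0 ∧ b = 1 ∧ c = 0 ∧ d = 0 ∧ e = 1 ∧ f = 1 := by
  have z10 : s 1 0 = 0 := hz0 0
  have z12 : s 1 2 = 0 := hz 1 2 (by norm_num)
  have z20 : s 2 0 = 0 := hz0 1
  have z23 : s 2 3 = 0 := hz 2 3 (by norm_num)
  have z30 : s 3 0 = 0 := hz0 2
  have z34 : s 3 4 = 0 := hz 3 4 (by norm_num)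
  have z40 : s 4 0 = 0 := hz0 3
  have z45 : s 4 5 = 0 := hz 4 5 (by norm_num)
  have z50 : s 5 0 = 0 := hz0 4
  have z56 : s 5 6 = 0 := hz 5 6 (by norm_num)
  have z60 : s 6 0 = 0 := hz0 5
  have z67 : s 6 7 = 0 := hz 6 7 (by norm_num)
  have z01 : s 0 1 = 0 := hz 0 1 (by norm_num)
  have H11 : s 1 1 = d + f := by
    have := hrec 0 0
    norm_num [z01, h00] at this
    linear_combination this
  have H21 : s 2 1 = (a + b * 1 + c * 1) * s 1 1 := by
    have := hrec 1 0
    norm_num [z10] at this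
    linear_combination this
  have H22 : s 2 2 = (d + e * 1 + f * 2) * s 1 1 := by
    have := hrec 1 1
    norm_num [z12] at this
    linear_combination this
  have H31 : s 3 1 = (a + b * 2 + c * 1) * s 2 1 := by
    have := hrec 2 0
    norm_num [z20] at this
    linear_combination this
  have H32 : s 3 2 = (a + b * 2 + c * 2) * s 2 2 + (d + e * 2 + f * 2) * s 2 1 := by
    have := hrec 2 1
    norm_num at this
    linear_combination this
  have H33 : s 3 3 = (d + e * 2 + f * 3) * s 2 2 := by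
    have := hrec 2 2
    norm_num [z23] at this
    linear_combination this
  have H41 : s 4 1 = (a + b * 3 + c * 1) * s 3 1 := by
    have := hrec 3 0
    norm_num [z30] at this
    linear_combination this
  have H42 : s 4 2 = (a + b * 3 + c * 2) * s 3 2 + (d + e * 3 + f * 2) * s 3 1 := by
    have := hrec 3 1
    norm_num at this
    linear_combination this
  have H43 : s 4 3 = (a + b * 3 + c * 3) * s 3 3 + (d + e * 3 + f * 3) * s 3 2 := by
    have := hrec 3 2
    norm_num at this
    linear_combination this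
  have H44 : s 4 4 = (d + e * 3 + f * 4) * s 3 3 := by
    have := hrec 3 3
    norm_num [z34] at this
    linear_combination this
  have H51 : s 5 1 = (a + b * 4 + c * 1) * s 4 1 := by
    have := hrec 4 0
    norm_num [z40] at this
    linear_combination this
  have H52 : s 5 2 = (a + b * 4 + c * 2) * s 4 2 + (d + e * 4 + f * 2) * s 4 1 := by
    have := hrec 4 1
    norm_num at this
    linear_combination this
  have H53 : s 5 3 = (a + b * 4 + c * 3) * s 4 3 + (d + e * 4 + f * 3) * s 4 2 := by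
    have := hrec 4 2
    norm_num at this
    linear_combination this
  have H54 : s 5 4 = (a + b * 4 + c * 4) * s 4 4 + (d + e * 4 + f * 4) * s 4 3 := by
    have := hrec 4 3
    norm_num at this
    linear_combination this
  have H55 : s 5 5 = (d + e * 4 + f * 5) * s 4 4 := by
    have := hrec 4 4
    norm_num [z45] at this
    linear_combination this
  have H61 : s 6 1 = (a + b * 5 + c * 1) * s 5 1 := by
    have := hrec 5 0
    norm_num [z50] at this
    linear_combination this
  have H62 : s 6 2 = (a + b * 5 + c * 2) * s 5 2 + (d + e * 5 + f * 2) * s 5 1 := by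
    have := hrec 5 1
    norm_num at this
    linear_combination this
  have H63 : s 6 3 = (a + b * 5 + c * 3) * s 5 3 + (d + e * 5 + f * 3) * s 5 2 := by
    have := hrec 5 2
    norm_num at this
    linear_combination this
  have H64 : s 6 4 = (a + b * 5 + c * 4) * s 5 4 + (d + e * 5 + f * 4) * s 5 3 := by
    have := hrec 5 3
    norm_num at this
    linear_combination this
  have H65 : s 6 5 = (a + b * 5 + c * 5) * s 5 5 + (d + e * 5 + f * 5) * s 5 4 := by
    have := hrec 5 4
    norm_num at this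
    linear_combination this
  have H66 : s 6 6 = (d + e * 5 + f * 6) * s 5 5 := by
    have := hrec 5 5
    norm_num [z56] at this
    linear_combination this
  have H71 : s 7 1 = (a + b * 6 + c * 1) * s 6 1 := by
    have := hrec 6 0
    norm_num [z60] at this
    linear_combination this
  have H72 : s 7 2 = (a + b * 6 + c * 2) * s 6 2 + (d + e * 6 + f * 2) * s 6 1 := by
    have := hrec 6 1
    norm_num at this
    linear_combination this
  have H73 : s 7 3 = (a + b * 6 + c * 3) * s 6 3 + (d + e * 6 + f * 3) * s 6 2 := by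
    have := hrec 6 2
    norm_num at this
    linear_combination this
  have H74 : s 7 4 = (a + b * 6 + c * 4) * s 6 4 + (d + e * 6 + f * 4) * s 6 3 := by
    have := hrec 6 3
    norm_num at this
    linear_combination this
  have H75 : s 7 5 = (a + b * 6 + c * 5) * s 6 5 + (d + e * 6 + f * 5) * s 6 4 := by
    have := hrec 6 4
    norm_num at this
    linear_combination this
  have H76 : s 7 6 = (a + b * 6 + c * 6) * s 6 6 + (d + e * 6 + f * 6) * s 6 5 := by
    have := hrec 6 5
    norm_num at this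
    linear_combination this
  have H77 : s 7 7 = (d + e * 6 + f * 7) * s 6 6 := by
    have := hrec 6 6
    norm_num [z67] at this
    linear_combination this
  have hs11 : s 1 1 = 1 := T1
  obtain ⟨p, hp⟩ : ∃ p, p = a + b + c := ⟨_, rfl⟩
  obtain ⟨r, hr⟩ : ∃ r, r = c + f := ⟨_, rfl⟩
  obtain ⟨E, hE⟩ : ∃ E, E = 4 * e + (4 - p) * r := ⟨_, rfl⟩
  have hd : d = 1 - f := by linear_combination T1 - H11
  have e2 : p + 1 + e + f = 4 := by
    rw [H21, H22, hs11] at T2
    linear_combination T2 + hp - hd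
  have e3 : 4 * (b + e) + (4 - p) * r = 11 := by
    rw [H31, H32, H33, H21, H22, hs11] at T3
    have hff : f = 3 - p - e := by linear_combination e2
    have hcc : c = r - f := by linear_combination -hr
    have haa : a = p - b - c := by linear_combination -hp
    rw [haa, hcc, hd, hff] at T3
    linear_combination T3
  have he : e = 1/4*r*p - r + 1/4*E := by linear_combination (-1/4) * hE
  have hf : f = -1/4*r*p + r - p - 1/4*E + 3 := by linear_combination e2 - he
  have hc : c = 1/4*r*p + p + 1/4*E - 3 := by linear_combination -hr - hf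
  have hb : b = -1/4*E + 11/4 := by linear_combination (1/4) * e3 - he
  have ha : a = -1/4*r*p + 1/4 := by linear_combination -hp - hb - hc
  have hd' : d = 1/4*r*p - r + p + 1/4*E - 2 := by linear_combination hd - hf
  have A : StageA r p E s := by
    refine ⟨hs11, ?_, ?_, ?_, ?_, ?_, ?_, ?_, ?_, ?_, ?_, ?_, ?_, ?_, ?_⟩
    · rw [H21, ha, hb, hc]
      ring
    · rw [H22, hd', he, hf]
      ring
    · rw [H31, ha, hb, hc]
      ring
    · rw [H32, ha, hb, hc, hd', he, hf]
      ring
    · rw [H33, hd', he, hf]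
      ring
    · rw [H41, ha, hb, hc]
      ring
    · rw [H42, ha, hb, hc, hd', he, hf]
      ring
    · rw [H43, ha, hb, hc, hd', he, hf]
      ring
    · rw [H44, hd', he, hf]
      ring
    · rw [H51, ha, hb, hc]
      ring
    · rw [H52, ha, hb, hc, hd', he, hf]
      ring
    · rw [H53, ha, hb, hc, hd', he, hf]
      ring
    · rw [H54, ha, hb, hc, hd', he, hf]
      ring
    · rw [H55, hd', he, hf]
      ring
  have hEv := A.eq T4 T5
  have ka : a = -1/4*r*p + 1/4 := by
    exact ha
  have kb : b = 5/4*r^2*p^2 - 6*r^2*p + 4*r^2 - r*p + 3*r + p - 5/4 := by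
    rw [hb, hEv]
    ring
  have kc : c = -5/4*r^2*p^2 + 6*r^2*p - 4*r^2 + 5/4*r*p - 3*r + 1 := by
    rw [hc, hEv]
    ring
  have kd : d = -5/4*r^2*p^2 + 6*r^2*p - 4*r^2 + 5/4*r*p - 4*r + 2 := by
    rw [hd', hEv]
    ring
  have ke : e = -5/4*r^2*p^2 + 6*r^2*p - 4*r^2 + 5/4*r*p - 4*r - p + 4 := by
    rw [he, hEv]
    ring
  have kf : f = 5/4*r^2*p^2 - 6*r^2*p + 4*r^2 - 5/4*r*p + 4*r - 1 := by
    rw [hf, hEv]
    ring
  have B : StageB r p s := by
    refine ⟨hs11, ?_, ?_, ?_, ?_, ?_, ?_, ?_, ?_, ?_, ?_, ?_, ?_, ?_, ?_, ?_, ?_, ?_, ?_, ?_, ?_, ?_, ?_, ?_, ?_, ?_, ?_, ?_⟩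
    · rw [H21, ka, kb, kc]
      ring
    · rw [H22, kd, ke, kf]
      ring
    · rw [H31, ka, kb, kc]
      ring
    · rw [H32, ka, kb, kc, kd, ke, kf]
      ring
    · rw [H33, kd, ke, kf]
      ring
    · rw [H41, ka, kb, kc]
      ring
    · rw [H42, ka, kb, kc, kd, ke, kf]
      ring
    · rw [H43, ka, kb, kc, kd, ke, kf]
      ring
    · rw [H44, kd, ke, kf]
      ring
    · rw [H51, ka, kb, kc]
      ring
    · rw [H52, ka, kb, kc, kd, ke, kf]
      ring
    · rw [H53, ka, kb, kc, kd, ke, kf]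
      ring
    · rw [H54, ka, kb, kc, kd, ke, kf]
      ring
    · rw [H55, kd, ke, kf]
      ring
    · rw [H61, ka, kb, kc]
      ring
    · rw [H62, ka, kb, kc, kd, ke, kf]
      ring
    · rw [H63, ka, kb, kc, kd, ke, kf]
      ring
    · rw [H64, ka, kb, kc, kd, ke, kf]
      ring
    · rw [H65, ka, kb, kc, kd, ke, kf]
      ring
    · rw [H66, kd, ke, kf]
      ring
    · rw [H71, ka, kb, kc]
      ring
    · rw [H72, ka, kb, kc, kd, ke, kf]
      ring
    · rw [H73, ka, kb, kc, kd, ke, kf]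
      ring
    · rw [H74, ka, kb, kc, kd, ke, kf]
      ring
    · rw [H75, ka, kb, kc, kd, ke, kf]
      ring
    · rw [H76, ka, kb, kc, kd, ke, kf]
      ring
    · rw [H77, kd, ke, kf]
      ring
  obtain ⟨r1, p1⟩ := B.final T4 T6 T7
  rw [r1, p1] at ka kb kc kd ke kf
  norm_num at ka kb kc kd ke kf
  exact ⟨ka, kb, kc, kd, ke, kf⟩

end Pool.Agent.ShorRec
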