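import Mathlib

/-!
Triangular arrays given by a polynomial recurrence, and Shor's array.
-/

namespace Pool.Agent.ShorRec

open MvPolynomial

/-- The value `F (m, n)` of a polynomial `F` in two variables at a pair of natural numbers. -/
noncomputable def val (F : MvPolynomial (Fin 2) ℂ) (m n : ℕ) : ℂ :=
  MvPolynomial.eval ![(m : ℂ), (n : ℂ)] F

/-- The array `S` defined by `S 0 0 = 1`, `S 0 n = S m 0 = 0` for `m, n ≥ 1` and
`S (m + 1) n = P (m, n) * S m n + Q (m, n) * S m (n - 1)` for `m ≥ 0`, `n ≥ 1`. -/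
noncomputable def S (P Q : MvPolynomial (Fin 2) ℂ) : ℕ → ℕ → ℂ
  | 0, 0 => 1
  | 0, _ + 1 => 0
  | _ + 1, 0 => 0
  | m + 1, n + 1 => val P m (n + 1) * S P Q m (n + 1) + val Q m (n + 1) * S P Q m n

/-- The pair `(P, Q)` is admissible: the `m`-th row sum is `m ^ m` for all `m ≥ 1`. -/
def Admissible (P Q : MvPolynomial (Fin 2) ℂ) : Prop :=
  ∀ m : ℕ, 1 ≤ m → ∑ n ∈ Finset.Icc 1 m, S P Q m n = (m : ℂ) ^ m

theorem S_zero_zero (P Q : MvPolynomial (Fin 2) ℂ) : S P Q 0 0 = 1 := by
  simp [S]

theorem S_succ_zero (P Q : MvPolynomial (Fin 2) ℂ) (m : ℕ) : S P Q (m + 1) 0 = 0 := by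
  simp [S]

theorem S_succ_succ (P Q : MvPolynomial (Fin 2) ℂ) (m n : ℕ) :
    S P Q (m + 1) (n + 1) =
      val P m (n + 1) * S P Q m (n + 1) + val Q m (n + 1) * S P Q m n := by
  simp [S]

theorem S_eq_zero_of_lt (P Q : MvPolynomial (Fin 2) ℂ) :
    ∀ m n : ℕ, m < n → S P Q m n = 0 := by
  intro m
  induction m with
  | zero =>
    intro n hn
    obtain ⟨k, rfl⟩ : ∃ k, n = k + 1 := ⟨n - 1, by omega⟩
    simp [S]
  | succ m ih =>
    intro n hn
    obtain ⟨k, rfl⟩ : ∃ k, n = k + 1 := ⟨n - 1, by omega⟩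
    rw [S_succ_succ, ih _ (by omega), ih _ (by omega)]
    simp

/-- The first-order values of the affine case. -/
theorem val_affine (a b c : ℂ) (m n : ℕ) :
    val (C a + C b * X 0 + C c * X 1) m n = a + b * m + c * n := by
  simp [val]

theorem val_X0 (m n : ℕ) : val (X 0) m n = m := by
  simp [val]

theorem val_X0_add_X1 (m n : ℕ) : val (X 0 + X 1) m n = m + n := by
  simp [val]

/-- A polynomial of total degree at most one in two variables is affine. -/
theorem exists_affine (F : MvPolynomial (Fin 2) ℂ) (hF : F.totalDegree ≤ 1) :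
    ∃ a b c : ℂ, F = C a + C b * X 0 + C c * X 1 := by
  refine ⟨F.coeff 0, F.coeff (Finsupp.single 0 1), F.coeff (Finsupp.single 1 1), ?_⟩
  ext d
  have hcase : d = 0 ∨ d = Finsupp.single 0 1 ∨ d = Finsupp.single 1 1 ∨ 2 ≤ d.degree := by
    have hdeg : d.degree = d 0 + d 1 := by
      rw [Finsupp.degree_eq_sum, Fin.sum_univ_two]
    by_cases h2 : 2 ≤ d.degree
    · exact Or.inr (Or.inr (Or.inr h2))
    · rw [hdeg] at h2
      have : (d 0 = 0 ∧ d 1 = 0) ∨ (d 0 = 1 ∧ d 1 = 0) ∨ (d 0 = 0 ∧ d 1 = 1) := by omega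
      rcases this with ⟨h0, h1⟩ | ⟨h0, h1⟩ | ⟨h0, h1⟩
      · left
        ext i
        fin_cases i <;> simp [h0, h1]
      · right; left
        ext i
        fin_cases i <;> simp [h0, h1]
      · right; right; left
        ext i
        fin_cases i <;> simp [h0, h1]
  have n0 : (0 : Fin 2 →₀ ℕ) ≠ Finsupp.single 0 1 := by
    intro h
    have := DFunLike.congr_fun h 0
    simp at this
  have n1 : (0 : Fin 2 →₀ ℕ) ≠ Finsupp.single 1 1 := by
    intro h
    have := DFunLike.congr_fun h 1
    simp at this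
  have n2 : (Finsupp.single 0 1 : Fin 2 →₀ ℕ) ≠ Finsupp.single 1 1 := by
    intro h
    have := DFunLike.congr_fun h 1
    simp at this
  rcases hcase with rfl | rfl | rfl | h
  · simp [coeff_X, coeff_C_mul, Finsupp.single_eq_zero]
  · simp [coeff_X, coeff_C_mul, coeff_C, n0, n2.symm]
  · simp [coeff_X, coeff_C_mul, coeff_C, n1, n2]
  · have h1 : F.coeff d = 0 := by
      apply coeff_eq_zero_of_totalDegree_lt
      have : d.degree = ∑ i ∈ d.support, d i := rfl
      omega
    rw [h1]
    have hne0 : d ≠ 0 := by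
      rintro rfl
      simp at h
    have hne1 : Finsupp.single (0 : Fin 2) 1 ≠ d := by
      rintro rfl
      simp at h
    have hne2 : Finsupp.single (1 : Fin 2) 1 ≠ d := by
      rintro rfl
      simp at h
    simp [coeff_X, coeff_C_mul, coeff_C, hne0.symm, hne1, hne2]

/-! ### Shor's array -/

/-- The array with the general first recurrence: `U x (m+1) n = (x + m) * U x m n +
(m + n) * U x m (n - 1)`. -/
noncomputable def U (x : ℂ) : ℕ → ℕ → ℂ
  | 0, 0 => 1
  | 0, _ + 1 => 0
  | m + 1, 0 => (x + m) * U x m 0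
  | m + 1, n + 1 => (x + m) * U x m (n + 1) + (m + n + 1) * U x m n

theorem U_shift (m : ℕ) : ∀ x : ℂ, U x (m + 1) 0 = x * U (x + 1) m 0 ∧
    ∀ n : ℕ, U x (m + 1) (n + 1) =
      (x - (n + 1)) * U (x + 1) m (n + 1) + (m + n + 1) * U (x + 1) m n := by
  induction m with
  | zero =>
    intro x
    constructor
    · simp [U]
    · intro n
      cases n with
      | zero => simp [U]
      | succ n => simp [U]
  | succ m ih =>
    intro x
    obtain ⟨ih0, ih1⟩ := ih x
    constructor
    · have e1 : U x (m + 1 + 1) 0 = (x + ((m + 1 : ℕ) : ℂ)) * U x (m + 1) 0 := by simp [U]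
      have e2 : U (x + 1) (m + 1) 0 = (x + 1 + m) * U (x + 1) m 0 := by simp [U]
      rw [e1, ih0, e2]
      push_cast
      ring
    · intro n
      have e1 : U x (m + 1 + 1) (n + 1) =
          (x + ((m + 1 : ℕ) : ℂ)) * U x (m + 1) (n + 1) +
            (((m + 1 : ℕ) : ℂ) + n + 1) * U x (m + 1) n := by simp [U]
      have e2 : U (x + 1) (m + 1) (n + 1) =
          (x + 1 + m) * U (x + 1) m (n + 1) + (m + n + 1) * U (x + 1) m n := by simp [U]
      rw [e1, ih1 n, e2]
      cases n with
      | zero =>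
        have e3 : U (x + 1) (m + 1) 0 = (x + 1 + m) * U (x + 1) m 0 := by simp [U]
        rw [ih0, e3]
        push_cast
        ring
      | succ k =>
        have e3 : U (x + 1) (m + 1) (k + 1) =
            (x + 1 + m) * U (x + 1) m (k + 1) + (m + k + 1) * U (x + 1) m k := by simp [U]
        rw [ih1 k, e3]
        push_cast
        ring

theorem U_eq_zero_of_lt (x : ℂ) : ∀ m n : ℕ, m < n → U x m n = 0 := by
  intro m
  induction m with
  | zero =>
    intro n hn
    obtain ⟨k, rfl⟩ : ∃ k, n = k + 1 := ⟨n - 1, by omega⟩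
    simp [U]
  | succ m ih =>
    intro n hn
    obtain ⟨k, rfl⟩ : ∃ k, n = k + 1 := ⟨n - 1, by omega⟩
    have e2 : U x (m + 1) (k + 1) =
          (x + m) * U x m (k + 1) + (m + k + 1) * U x m k := by simp [U]
    rw [e2, ih _ (by omega), ih _ (by omega)]
    simp

theorem U_sum (m : ℕ) : ∀ x : ℂ, ∑ n ∈ Finset.range (m + 1), U x m n = (x + m) ^ m := by
  induction m with
  | zero =>
    intro x
    simp [U]
  | succ m ih =>
    intro x
    obtain ⟨h0, h1⟩ := U_shift m x
    rw [Finset.sum_range_succ', h0]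
    simp_rw [h1]
    rw [Finset.sum_add_distrib]
    have hA : ∑ n ∈ Finset.range (m + 1), (x - (n + 1)) * U (x + 1) m (n + 1) + x * U (x + 1) m 0
        = ∑ n ∈ Finset.range (m + 1), (x - n) * U (x + 1) m n := by
      have := Finset.sum_range_succ' (fun n : ℕ => (x - n) * U (x + 1) m n) (m + 1)
      rw [Finset.sum_range_succ] at this
      rw [U_eq_zero_of_lt (x + 1) m (m + 1) (by omega)] at this
      simp only [mul_zero, add_zero, Nat.cast_add, Nat.cast_one, Nat.cast_zero, sub_zero] at this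
      exact this.symm
    have hB : ∑ n ∈ Finset.range (m + 1), (x - (n + 1)) * U (x + 1) m (n + 1) +
        ∑ n ∈ Finset.range (m + 1), ((m : ℂ) + n + 1) * U (x + 1) m n + x * U (x + 1) m 0
        = ∑ n ∈ Finset.range (m + 1), (x + 1 + m) * U (x + 1) m n := by
      rw [add_right_comm, hA, ← Finset.sum_add_distrib]
      apply Finset.sum_congr rfl
      intro n _
      ring
    rw [hB, ← Finset.mul_sum, ih]
    push_cast
    ring

theorem U_zero_succ (m : ℕ) : U 0 (m + 1) 0 = 0 := by
  induction m with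
  | zero => simp [U]
  | succ m ih =>
    have e1 : U 0 (m + 1 + 1) 0 = (0 + ((m + 1 : ℕ) : ℂ)) * U 0 (m + 1) 0 := by simp [U]
    rw [e1, ih, mul_zero]

theorem S_shor (m : ℕ) : ∀ n : ℕ, S (X 0) (X 0 + X 1) m n = U 0 m n := by
  induction m with
  | zero =>
    intro n
    cases n <;> simp [S, U]
  | succ m ih =>
    intro n
    cases n with
    | zero => rw [S_succ_zero, U_zero_succ]
    | succ n =>
      rw [S_succ_succ, ih, ih, val_X0, val_X0_add_X1]
      simp only [U]
      push_cast
      ring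

/-- Shor's identity. -/
theorem admissible_shor : Admissible (X 0) (X 0 + X 1) := by
  intro m hm
  obtain ⟨k, rfl⟩ : ∃ k, m = k + 1 := ⟨m - 1, by omega⟩
  have h := U_sum (k + 1) 0
  rw [Finset.sum_range_succ', U_zero_succ, add_zero, zero_add] at h
  rw [← h]
  have : Finset.Icc 1 (k + 1) = (Finset.range (k + 1)).map ⟨fun n => n + 1, fun a b h => by simpa using h⟩ := by
    ext n
    simp only [Finset.mem_Icc, Finset.mem_map, Finset.mem_range, Function.Embedding.coeFn_mk]
    constructor
    · intro hn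
      exact ⟨n - 1, by omega, by omega⟩
    · rintro ⟨a, ha, rfl⟩
      omega
  rw [this, Finset.sum_map]
  apply Finset.sum_congr rfl
  intro n _
  simp only [Function.Embedding.coeFn_mk]
  exact S_shor _ _

end Pool.Agent.ShorRec
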