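import Mathlib

/-!
Elimination for triangular recurrences with affine coefficients and row sums `m ^ m`.
-/

namespace Pool.Agent.ShorRec

set_option linter.all false

/-- The values of the array up to row five, in the parameters `r p E`. -/
structure StageA (r p E : ℂ) (s : ℕ → ℕ → ℂ) : Prop where
  h11 : s 1 1 = 1
  h21 : s 2 1 = (p) * s 1 1
  h22 : s 2 2 = (-p + 4) * s 1 1
  h31 : s 3 1 = (p - 1/4*E + 11/4) * s 2 1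
  h32 : s 3 2 = (1/4*r*p + 2*p - 1/4) * s 2 2 + (1/4*r*p - r - p + 1/4*E + 4) * s 2 1
  h33 : s 3 3 = (-2*p + 7) * s 2 2
  h41 : s 4 1 = (p - 1/2*E + 11/2) * s 3 1
  h42 : s 4 2 = (1/4*r*p + 2*p - 1/4*E + 5/2) * s 3 2 + (1/2*r*p - 2*r - p + 1/2*E + 4) * s 3 1
  h43 : s 4 3 = (1/2*r*p + 3*p - 1/2) * s 3 3 + (1/4*r*p - r - 2*p + 1/4*E + 7) * s 3 2
  h44 : s 4 4 = (-3*p + 10) * s 3 3
  h51 : s 5 1 = (p - 3/4*E + 33/4) * s 4 1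
  h52 : s 5 2 = (1/4*r*p + 2*p - 1/2*E + 21/4) * s 4 2 + (3/4*r*p - 3*r - p + 3/4*E + 4) * s 4 1
  h53 : s 5 3 = (1/2*r*p + 3*p - 1/4*E + 9/4) * s 4 3 + (1/2*r*p - 2*r - 2*p + 1/2*E + 7) * s 4 2
  h54 : s 5 4 = (3/4*r*p + 4*p - 3/4) * s 4 4 + (1/4*r*p - r - 3*p + 1/4*E + 10) * s 4 3
  h55 : s 5 5 = (-4*p + 13) * s 4 4

theorem StageA.v21 {r p E : ℂ} {s : ℕ → ℕ → ℂ} (h : StageA r p E s) :
    s 2 1 = p := by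
  rw [h.h21, h.h11]
  ring

theorem StageA.v22 {r p E : ℂ} {s : ℕ → ℕ → ℂ} (h : StageA r p E s) :
    s 2 2 = -p + 4 := by
  rw [h.h22, h.h11]
  ring

theorem StageA.v31 {r p E : ℂ} {s : ℕ → ℕ → ℂ} (h : StageA r p E s) :
    s 3 1 = p^2 - 1/4*p*E + 11/4*p := by
  rw [h.h31, h.v21]
  ring

theorem StageA.v32 {r p E : ℂ} {s : ℕ → ℕ → ℂ} (h : StageA r p E s) :
    s 3 2 = -3*p^2 + 1/4*p*E + 49/4*p - 1 := by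
  rw [h.h32, h.v22, h.v21]
  ring

theorem StageA.v33 {r p E : ℂ} {s : ℕ → ℕ → ℂ} (h : StageA r p E s) :
    s 3 3 = 2*p^2 - 15*p + 28 := by
  rw [h.h33, h.v22]
  ring

theorem StageA.v41 {r p E : ℂ} {s : ℕ → ℕ → ℂ} (h : StageA r p E s) :
    s 4 1 = p^3 - 3/4*p^2*E + 33/4*p^2 + 1/8*p*E^2 - 11/4*p*E + 121/8*p := by
  rw [h.h41, h.v31]
  ring

theorem StageA.v42 {r p E : ℂ} {s : ℕ → ℕ → ℂ} (h : StageA r p E s) :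
    s 4 2 = -1/4*r*p^3 - 1/16*r*p^2*E + 39/16*r*p^2 + 1/2*r*p*E - 23/4*r*p - 7*p^3 + 2*p^2*E + 73/4*p^2 - 3/16*p*E^2 - 33/16*p*E + 317/8*p + 1/4*E - 5/2 := by
  rw [h.h42, h.v32, h.v31]
  ring

theorem StageA.v43 {r p E : ℂ} {s : ℕ → ℕ → ℂ} (h : StageA r p E s) :
    s 4 3 = 1/4*r*p^3 + 1/16*r*p^2*E - 23/16*r*p^2 - 1/4*r*p*E + 3/2*r*p + r + 12*p^3 - 5/4*p^2*E - 183/2*p^2 + 1/16*p*E^2 + 77/16*p*E + 717/4*p - 1/4*E - 21 := by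
  rw [h.h43, h.v33, h.v32]
  ring

theorem StageA.v44 {r p E : ℂ} {s : ℕ → ℕ → ℂ} (h : StageA r p E s) :
    s 4 4 = -6*p^3 + 65*p^2 - 234*p + 280 := by
  rw [h.h44, h.v33]
  ring

theorem StageA.v51 {r p E : ℂ} {s : ℕ → ℕ → ℂ} (h : StageA r p E s) :
    s 5 1 = p^4 - 3/2*p^3*E + 33/2*p^3 + 11/16*p^2*E^2 - 121/8*p^2*E + 1331/16*p^2 - 3/32*p*E^3 + 99/32*p*E^2 - 1089/32*p*E + 3993/32*p := by
  rw [h.h51, h.v41]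
  ring

theorem StageA.v52 {r p E : ℂ} {s : ℕ → ℕ → ℂ} (h : StageA r p E s) :
    s 5 2 = -1/16*r^2*p^4 - 1/64*r^2*p^3*E + 39/64*r^2*p^3 + 1/8*r^2*p^2*E - 23/16*r^2*p^2 - 3/2*r*p^4 - 1/16*r*p^3*E + 181/16*r*p^3 + 5/64*r*p^2*E^2 - 7/8*r*p^2*E - 141/64*r*p^2 - 5/8*r*p*E^2 + 221/16*r*p*E - 1219/16*r*p - 15*p^4 + 9*p^3*E - 9/2*p^3 - 33/16*p^2*E^2 + 51/16*p^2*E + 3087/16*p^2 + 3/16*p*E^3 - 97/64*p*E^2 - 1907/64*p*E + 8433/32*p - 1/8*E^2 + 41/16*E - 105/8 := by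
  rw [h.h52, h.v42, h.v41]
  ring

theorem StageA.v53 {r p E : ℂ} {s : ℕ → ℕ → ℂ} (h : StageA r p E s) :
    s 5 3 = r^2*p^3 + 1/4*r^2*p^2*E - 7*r^2*p^2 - r^2*p*E + 12*r^2*p + 15/4*r*p^4 + 1/2*r*p^3*E - 33*r*p^3 - 7/64*r*p^2*E^2 - 99/32*r*p^2*E + 6577/64*r*p^2 + 11/16*r*p*E^2 + 61/16*r*p*E - 999/8*r*p - 3/4*r*E + 29/4*r + 50*p^4 - 57/4*p^3*E - 333*p^3 + 15/8*p^2*E^2 + 247/4*p^2*E + 3043/8*p^2 - 7/64*p*E^3 - 109/32*p*E^2 - 1911/64*p*E + 9963/16*p + 3/16*E^2 + 83/16*E - 259/4 := by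
  rw [h.h53, h.v43, h.v42]
  ring

theorem StageA.v54 {r p E : ℂ} {s : ℕ → ℕ → ℂ} (h : StageA r p E s) :
    s 5 4 = 1/16*r^2*p^4 + 1/64*r^2*p^3*E - 39/64*r^2*p^3 - 1/8*r^2*p^2*E + 29/16*r^2*p^2 + 1/4*r^2*p*E - 5/4*r^2*p - r^2 - 9/4*r*p^4 - 7/16*r*p^3*E + 331/16*r*p^3 + 1/32*r*p^2*E^2 + 111/32*r*p^2*E - 929/16*r*p^2 - 1/8*r*p*E^2 - 7*r*p*E + 75/2*r*p + 1/2*r*E + 31*r - 60*p^4 + 27/4*p^3*E + 659*p^3 - 1/2*p^2*E^2 - 797/16*p^2*E - 4875/2*p^2 + 1/64*p*E^3 + 117/64*p*E^2 + 1499/16*p*E + 3151*p - 1/16*E^2 - 31/4*E - 420 := by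
  rw [h.h54, h.v44, h.v43]
  ring

theorem StageA.v55 {r p E : ℂ} {s : ℕ → ℕ → ℂ} (h : StageA r p E s) :
    s 5 5 = 24*p^4 - 338*p^3 + 1781*p^2 - 4162*p + 3640 := by
  rw [h.h55, h.v44]
  ring

/-- The values of the array up to row seven, in the parameters `r p`. -/
structure StageB (r p : ℂ) (s : ℕ → ℕ → ℂ) : Prop where
  h11 : s 1 1 = 1
  h21 : s 2 1 = (p) * s 1 1
  h22 : s 2 2 = (-p + 4) * s 1 1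
  h31 : s 3 1 = (5/4*r^2*p^2 - 6*r^2*p + 4*r^2 - r*p + 3*r + 2*p - 5/4) * s 2 1
  h32 : s 3 2 = (1/4*r*p + 2*p - 1/4) * s 2 2 + (-5/4*r^2*p^2 + 6*r^2*p - 4*r^2 + 5/4*r*p - 4*r - 2*p + 8) * s 2 1
  h33 : s 3 3 = (-2*p + 7) * s 2 2
  h41 : s 4 1 = (5/2*r^2*p^2 - 12*r^2*p + 8*r^2 - 2*r*p + 6*r + 3*p - 5/2) * s 3 1
  h42 : s 4 2 = (5/4*r^2*p^2 - 6*r^2*p + 4*r^2 - 3/4*r*p + 3*r + 3*p - 3/2) * s 3 2 + (-5/2*r^2*p^2 + 12*r^2*p - 8*r^2 + 5/2*r*p - 8*r - 3*p + 12) * s 3 1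
  h43 : s 4 3 = (1/2*r*p + 3*p - 1/2) * s 3 3 + (-5/4*r^2*p^2 + 6*r^2*p - 4*r^2 + 5/4*r*p - 4*r - 3*p + 11) * s 3 2
  h44 : s 4 4 = (-3*p + 10) * s 3 3
  h51 : s 5 1 = (15/4*r^2*p^2 - 18*r^2*p + 12*r^2 - 3*r*p + 9*r + 4*p - 15/4) * s 4 1
  h52 : s 5 2 = (5/2*r^2*p^2 - 12*r^2*p + 8*r^2 - 7/4*r*p + 6*r + 4*p - 11/4) * s 4 2 + (-15/4*r^2*p^2 + 18*r^2*p - 12*r^2 + 15/4*r*p - 12*r - 4*p + 16) * s 4 1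
  h53 : s 5 3 = (5/4*r^2*p^2 - 6*r^2*p + 4*r^2 - 1/2*r*p + 3*r + 4*p - 7/4) * s 4 3 + (-5/2*r^2*p^2 + 12*r^2*p - 8*r^2 + 5/2*r*p - 8*r - 4*p + 15) * s 4 2
  h54 : s 5 4 = (3/4*r*p + 4*p - 3/4) * s 4 4 + (-5/4*r^2*p^2 + 6*r^2*p - 4*r^2 + 5/4*r*p - 4*r - 4*p + 14) * s 4 3
  h55 : s 5 5 = (-4*p + 13) * s 4 4
  h61 : s 6 1 = (5*r^2*p^2 - 24*r^2*p + 16*r^2 - 4*r*p + 12*r + 5*p - 5) * s 5 1
  h62 : s 6 2 = (15/4*r^2*p^2 - 18*r^2*p + 12*r^2 - 11/4*r*p + 9*r + 5*p - 4) * s 5 2 + (-5*r^2*p^2 + 24*r^2*p - 16*r^2 + 5*r*p - 16*r - 5*p + 20) * s 5 1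
  h63 : s 6 3 = (5/2*r^2*p^2 - 12*r^2*p + 8*r^2 - 3/2*r*p + 6*r + 5*p - 3) * s 5 3 + (-15/4*r^2*p^2 + 18*r^2*p - 12*r^2 + 15/4*r*p - 12*r - 5*p + 19) * s 5 2
  h64 : s 6 4 = (5/4*r^2*p^2 - 6*r^2*p + 4*r^2 - 1/4*r*p + 3*r + 5*p - 2) * s 5 4 + (-5/2*r^2*p^2 + 12*r^2*p - 8*r^2 + 5/2*r*p - 8*r - 5*p + 18) * s 5 3
  h65 : s 6 5 = (r*p + 5*p - 1) * s 5 5 + (-5/4*r^2*p^2 + 6*r^2*p - 4*r^2 + 5/4*r*p - 4*r - 5*p + 17) * s 5 4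
  h66 : s 6 6 = (-5*p + 16) * s 5 5
  h71 : s 7 1 = (25/4*r^2*p^2 - 30*r^2*p + 20*r^2 - 5*r*p + 15*r + 6*p - 25/4) * s 6 1
  h72 : s 7 2 = (5*r^2*p^2 - 24*r^2*p + 16*r^2 - 15/4*r*p + 12*r + 6*p - 21/4) * s 6 2 + (-25/4*r^2*p^2 + 30*r^2*p - 20*r^2 + 25/4*r*p - 20*r - 6*p + 24) * s 6 1
  h73 : s 7 3 = (15/4*r^2*p^2 - 18*r^2*p + 12*r^2 - 5/2*r*p + 9*r + 6*p - 17/4) * s 6 3 + (-5*r^2*p^2 + 24*r^2*p - 16*r^2 + 5*r*p - 16*r - 6*p + 23) * s 6 2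
  h74 : s 7 4 = (5/2*r^2*p^2 - 12*r^2*p + 8*r^2 - 5/4*r*p + 6*r + 6*p - 13/4) * s 6 4 + (-15/4*r^2*p^2 + 18*r^2*p - 12*r^2 + 15/4*r*p - 12*r - 6*p + 22) * s 6 3
  h75 : s 7 5 = (5/4*r^2*p^2 - 6*r^2*p + 4*r^2 + 3*r + 6*p - 9/4) * s 6 5 + (-5/2*r^2*p^2 + 12*r^2*p - 8*r^2 + 5/2*r*p - 8*r - 6*p + 21) * s 6 4
  h76 : s 7 6 = (5/4*r*p + 6*p - 5/4) * s 6 6 + (-5/4*r^2*p^2 + 6*r^2*p - 4*r^2 + 5/4*r*p - 4*r - 6*p + 20) * s 6 5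
  h77 : s 7 7 = (-6*p + 19) * s 6 6

theorem StageB.v21 {r p : ℂ} {s : ℕ → ℕ → ℂ} (h : StageB r p s) :
    s 2 1 = p := by
  rw [h.h21, h.h11]
  ring

theorem StageB.v22 {r p : ℂ} {s : ℕ → ℕ → ℂ} (h : StageB r p s) :
    s 2 2 = -p + 4 := by
  rw [h.h22, h.h11]
  ring

theorem StageB.v31 {r p : ℂ} {s : ℕ → ℕ → ℂ} (h : StageB r p s) :
    s 3 1 = 5/4*r^2*p^3 - 6*r^2*p^2 + 4*r^2*p - r*p^2 + 3*r*p + 2*p^2 - 5/4*p := by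
  rw [h.h31, h.v21]
  ring

theorem StageB.v32 {r p : ℂ} {s : ℕ → ℕ → ℂ} (h : StageB r p s) :
    s 3 2 = -5/4*r^2*p^3 + 6*r^2*p^2 - 4*r^2*p + r*p^2 - 3*r*p - 4*p^2 + 65/4*p - 1 := by
  rw [h.h32, h.v22, h.v21]
  ring

theorem StageB.v33 {r p : ℂ} {s : ℕ → ℕ → ℂ} (h : StageB r p s) :
    s 3 3 = 2*p^2 - 15*p + 28 := by
  rw [h.h33, h.v22]
  ring

theorem StageB.v41 {r p : ℂ} {s : ℕ → ℕ → ℂ} (h : StageB r p s) :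
    s 4 1 = 25/8*r^4*p^5 - 30*r^4*p^4 + 92*r^4*p^3 - 96*r^4*p^2 + 32*r^4*p - 5*r^3*p^4 + 39*r^3*p^3 - 88*r^3*p^2 + 48*r^3*p + 35/4*r^2*p^4 - 185/4*r^2*p^3 + 46*r^2*p^2 - 2*r^2*p - 7*r*p^3 + 26*r*p^2 - 15*r*p + 6*p^3 - 35/4*p^2 + 25/8*p := by
  rw [h.h41, h.v31]
  ring

theorem StageB.v42 {r p : ℂ} {s : ℕ → ℕ → ℂ} (h : StageB r p s) :
    s 4 2 = -75/16*r^4*p^5 + 45*r^4*p^4 - 138*r^4*p^3 + 144*r^4*p^2 - 48*r^4*p + 125/16*r^3*p^4 - 125/2*r^3*p^3 + 145*r^3*p^2 - 80*r^3*p - 35/2*r^2*p^4 + 1937/16*r^2*p^3 - 230*r^2*p^2 + 102*r^2*p - 4*r^2 + 14*r*p^3 - 1197/16*r*p^2 + 100*r*p - 3*r - 18*p^3 + 165/2*p^2 - 339/8*p + 3/2 := by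
  rw [h.h42, h.v32, h.v31]
  ring

theorem StageB.v43 {r p : ℂ} {s : ℕ → ℕ → ℂ} (h : StageB r p s) :
    s 4 3 = 25/16*r^4*p^5 - 15*r^4*p^4 + 46*r^4*p^3 - 48*r^4*p^2 + 16*r^4*p - 45/16*r^3*p^4 + 89/4*r^3*p^3 - 51*r^3*p^2 + 28*r^3*p + 35/4*r^2*p^4 - 1197/16*r^2*p^3 + 185*r^2*p^2 - 103*r^2*p + 4*r^2 - 7*r*p^3 + 781/16*r*p^2 - 341/4*r*p + 4*r + 18*p^3 - 555/4*p^2 + 1093/4*p - 25 := by
  rw [h.h43, h.v33, h.v32]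
  ring

theorem StageB.v44 {r p : ℂ} {s : ℕ → ℕ → ℂ} (h : StageB r p s) :
    s 4 4 = -6*p^3 + 65*p^2 - 234*p + 280 := by
  rw [h.h44, h.v33]
  ring

theorem StageB.v51 {r p : ℂ} {s : ℕ → ℕ → ℂ} (h : StageB r p s) :
    s 5 1 = 375/32*r^6*p^7 - 675/4*r^6*p^6 + 1845/2*r^6*p^5 - 2376*r^6*p^4 + 2952*r^6*p^3 - 1728*r^6*p^2 + 384*r^6*p - 225/8*r^5*p^6 + 2835/8*r^5*p^5 - 1638*r^5*p^4 + 3348*r^5*p^3 - 2880*r^5*p^2 + 864*r^5*p + 725/16*r^4*p^6 - 14325/32*r^4*p^5 + 2857/2*r^4*p^4 - 3009/2*r^4*p^3 + 140*r^4*p^2 + 288*r^4*p - 145/2*r^3*p^5 + 2463/4*r^3*p^4 - 6643/4*r^3*p^3 + 1524*r^3*p^2 - 378*r^3*p + 115/2*r^2*p^5 - 2701/8*r^2*p^4 + 14645/32*r^2*p^3 - 251/4*r^2*p^2 - 90*r^2*p - 46*r*p^4 + 421/2*r*p^3 - 1965/8*r*p^2 + 675/8*r*p + 24*p^4 - 115/2*p^3 + 725/16*p^2 - 375/32*p := by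
  rw [h.h51, h.v41]
  ring

theorem StageB.v52 {r p : ℂ} {s : ℕ → ℕ → ℂ} (h : StageB r p s) :
    s 5 2 = -375/16*r^6*p^7 + 675/2*r^6*p^6 - 1845*r^6*p^5 + 4752*r^6*p^4 - 5904*r^6*p^3 + 3456*r^6*p^2 - 768*r^6*p + 3725/64*r^5*p^6 - 5945/8*r^5*p^5 + 6967/2*r^5*p^4 - 7216*r^5*p^3 + 6260*r^5*p^2 - 1888*r^5*p - 1725/16*r^4*p^6 + 18785/16*r^4*p^5 - 4439*r^4*p^4 + 27035/4*r^4*p^3 - 3668*r^4*p^2 + 476*r^4*p - 32*r^4 + 2815/16*r^3*p^5 - 26901/16*r^3*p^4 + 21809/4*r^3*p^3 - 27299/4*r^3*p^2 + 2647*r^3*p - 48*r^3 - 345/2*r^2*p^5 + 21915/16*r^2*p^4 - 104373/32*r^2*p^3 + 17007/8*r^2*p^2 + 249/4*r^2*p + 5*r^2 + 138*r*p^4 - 14575/16*r*p^3 + 113127/64*r*p^2 - 6571/8*r*p + 69/4*r - 96*p^4 + 1021/2*p^3 - 4391/8*p^2 + 5521/32*p - 33/8 := by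
  rw [h.h52, h.v42, h.v41]
  ring

theorem StageB.v53 {r p : ℂ} {s : ℕ → ℕ → ℂ} (h : StageB r p s) :
    s 5 3 = 875/64*r^6*p^7 - 1575/8*r^6*p^6 + 4305/4*r^6*p^5 - 2772*r^6*p^4 + 3444*r^6*p^3 - 2016*r^6*p^2 + 448*r^6*p - 2275/64*r^5*p^6 + 3655/8*r^5*p^5 - 4313/2*r^5*p^4 + 4496*r^5*p^3 - 3916*r^5*p^2 + 1184*r^5*p + 1275/16*r^4*p^6 - 30425/32*r^4*p^5 + 65309/16*r^4*p^4 - 29941/4*r^4*p^3 + 5410*r^4*p^2 - 1324*r^4*p + 48*r^4 - 1075/8*r^3*p^5 + 45615/32*r^3*p^4 - 84929/16*r^3*p^3 + 15831/2*r^3*p^2 - 3587*r^3*p + 84*r^3 + 345/2*r^2*p^5 - 3453/2*r^2*p^4 + 367899/64*r^2*p^3 - 111267/16*r^2*p^2 + 2277*r^2*p - 143*r^2 - 138*r*p^4 + 9523/8*r*p^3 - 209115/64*r*p^2 + 45635/16*r*p - 139*r + 144*p^4 - 2373/2*p^3 + 43885/16*p^2 - 19517/16*p + 265/4 := by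
  rw [h.h53, h.v43, h.v42]
  ring

theorem StageB.v54 {r p : ℂ} {s : ℕ → ℕ → ℂ} (h : StageB r p s) :
    s 5 4 = -125/64*r^6*p^7 + 225/8*r^6*p^6 - 615/4*r^6*p^5 + 396*r^6*p^4 - 492*r^6*p^3 + 288*r^6*p^2 - 64*r^6*p + 175/32*r^5*p^6 - 1115/16*r^5*p^5 + 326*r^5*p^4 - 674*r^5*p^3 + 584*r^5*p^2 - 176*r^5*p - 275/16*r^4*p^6 + 1795/8*r^4*p^5 - 17121/16*r^4*p^4 + 8885/4*r^4*p^3 - 1860*r^4*p^2 + 548*r^4*p - 16*r^4 + 495/16*r^3*p^5 - 11517/32*r^3*p^4 + 23575/16*r^3*p^3 - 4813/2*r^3*p^2 + 1174*r^3*p - 32*r^3 - 115/2*r^2*p^5 + 11111/16*r^2*p^4 - 188443/64*r^2*p^3 + 78815/16*r^2*p^2 - 2355*r^2*p + 140*r^2 + 46*r*p^4 - 7839/16*r*p^3 + 27927/16*r*p^2 - 8495/4*r*p + 156*r - 96*p^4 + 2143/2*p^3 - 16081/4*p^2 + 5221*p - 560 := by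
  rw [h.h54, h.v44, h.v43]
  ring

theorem StageB.v55 {r p : ℂ} {s : ℕ → ℕ → ℂ} (h : StageB r p s) :
    s 5 5 = 24*p^4 - 338*p^3 + 1781*p^2 - 4162*p + 3640 := by
  rw [h.h55, h.v44]
  ring

theorem StageB.v61 {r p : ℂ} {s : ℕ → ℕ → ℂ} (h : StageB r p s) :
    s 6 1 = 1875/32*r^8*p^9 - 1125*r^8*p^8 + 8850*r^8*p^7 - 36720*r^8*p^6 + 86544*r^8*p^5 - 117504*r^8*p^4 + 90624*r^8*p^3 - 36864*r^8*p^2 + 6144*r^8*p - 375/2*r^7*p^8 + 6525/2*r^7*p^7 - 22860*r^7*p^6 + 82296*r^7*p^5 - 161280*r^7*p^4 + 169344*r^7*p^3 - 89088*r^7*p^2 + 18432*r^7*p + 9125/32*r^6*p^8 - 32925/8*r^6*p^7 + 44625/2*r^6*p^6 - 54657*r^6*p^5 + 53256*r^6*p^4 + 2304*r^6*p^3 - 32128*r^6*p^2 + 13056*r^6*p - 5475/8*r^5*p^7 + 72525/8*r^5*p^6 - 90579/2*r^5*p^5 + 105420*r^5*p^4 - 114792*r^5*p^3 + 52704*r^5*p^2 - 6912*r^5*p + 8225/16*r^4*p^7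 - 167775/32*r^4*p^6 + 277745/16*r^4*p^5 - 34665/2*r^4*p^4 - 9424*r^4*p^3 + 21696*r^4*p^2 - 7416*r^4*p - 1645/2*r^3*p^6 + 30553/4*r^3*p^5 - 97123/4*r^3*p^4 + 62703/2*r^3*p^3 - 15858*r^3*p^2 + 2160*r^3*p + 815/2*r^2*p^6 - 21241/8*r^2*p^5 + 146335/32*r^2*p^4 - 9277/8*r^2*p^3 - 2415*r^2*p^2 + 1275*r^2*p - 326*r*p^5 + 3601/2*r*p^4 - 25215/8*r*p^3 + 17925/8*r*p^2 - 1125/2*r*p + 120*p^5 - 815/2*p^4 + 8225/16*p^3 - 9125/32*p^2 + 1875/32*p := by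
  rw [h.h61, h.v51]
  ring

theorem StageB.v62 {r p : ℂ} {s : ℕ → ℕ → ℂ} (h : StageB r p s) :
    s 6 2 = -9375/64*r^8*p^9 + 5625/2*r^8*p^8 - 22125*r^8*p^7 + 91800*r^8*p^6 - 216360*r^8*p^5 + 293760*r^8*p^4 - 226560*r^8*p^3 + 92160*r^8*p^2 - 15360*r^8*p + 123375/256*r^7*p^8 - 135225/16*r^7*p^7 + 955305/16*r^7*p^6 - 433431/2*r^7*p^5 + 427905*r^7*p^4 - 451872*r^7*p^3 + 238704*r^7*p^2 - 49536*r^7*p - 51625/64*r^6*p^8 + 3130325/256*r^6*p^7 - 4573285/64*r^6*p^6 + 3194357/16*r^6*p^5 - 265009*r^6*p^4 + 133355*r^6*p^3 + 9756*r^6*p^2 - 18384*r^6*p - 384*r^6 + 126525/64*r^5*p^7 - 221885/8*r^5*p^6 + 1198471/8*r^5*p^5 - 3117353/8*r^5*p^4 + 1000897/2*r^5*p^3 - 294700*r^5*p^2 + 63272*r^5*p - 864*r^5 - 1700*r^4*p^7 + 637095/32*r^4*p^6 - 10599417/128*r^4*p^5 + 4453715/32*r^4*p^4 - 477483/8*r^4*p^3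 - 213245/4*r^4*p^2 + 35796*r^4*p - 244*r^4 + 44025/16*r^3*p^6 - 947931/32*r^3*p^5 + 29514191/256*r^3*p^4 - 3121893/16*r^3*p^3 + 2150967/16*r^3*p^2 - 55837/2*r^3*p + 444*r^3 - 1630*r^2*p^6 + 228367/16*r^2*p^5 - 2539653/64*r^2*p^4 + 8756793/256*r^2*p^3 + 179719/64*r^2*p^2 - 135707/16*r^2*p + 343/4*r^2 + 1304*r*p^5 - 160297/16*r*p^4 + 1610905/64*r*p^3 - 2906831/128*r*p^2 + 54487/8*r*p - 849/8*r - 600*p^5 + 3704*p^4 - 98607/16*p^3 + 4023*p^2 - 7561/8*p + 33/2 := by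
  rw [h.h62, h.v52, h.v51]
  ring

theorem StageB.v63 {r p : ℂ} {s : ℕ → ℕ → ℂ} (h : StageB r p s) :
    s 6 3 = 15625/128*r^8*p^9 - 9375/4*r^8*p^8 + 36875/2*r^8*p^7 - 76500*r^8*p^6 + 180300*r^8*p^5 - 244800*r^8*p^4 + 188800*r^8*p^3 - 76800*r^8*p^2 + 12800*r^8*p - 106375/256*r^7*p^8 + 234475/32*r^7*p^7 - 832965/16*r^7*p^6 + 190029*r^7*p^5 - 377121*r^7*p^4 + 399768*r^7*p^3 - 211760*r^7*p^2 + 44032*r^7*p + 12625/16*r^6*p^8 - 3216175/256*r^6*p^7 + 2513605/32*r^6*p^6 - 3881349/16*r^6*p^5 + 381482*r^6*p^4 - 283977*r^6*p^3 + 82312*r^6*p^2 - 3632*r^6*p + 768*r^6 - 63625/32*r^5*p^7 + 117845/4*r^5*p^6 - 170524*r^5*p^5 + 3874771/8*r^5*p^4 - 2775901/4*r^5*p^3 + 462596*r^5*p^2 - 115604*r^5*p + 1920*r^5 + 16125/8*r^4*p^7 - 853695/32*r^4*p^6 + 8436967/64*r^4*p^5 - 9406927/32*r^4*p^4 + 2190583/8*r^4*p^3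 - 57949*r^4*p^2 - 20901*r^4*p - 876*r^4 - 53115/16*r^3*p^6 + 325143/8*r^3*p^5 - 47593079/256*r^3*p^4 + 6191085/16*r^3*p^3 - 5628453/16*r^3*p^2 + 438059/4*r^3*p - 3401*r^3 + 2445*r^2*p^6 - 430209/16*r^2*p^5 + 1651435/16*r^2*p^4 - 40223207/256*r^2*p^3 + 1129713/16*r^2*p^2 + 130503/16*r^2*p + 125/2*r^2 - 1956*r*p^5 + 308043/16*r*p^4 - 2095091/32*r*p^3 + 11171167/128*r*p^2 - 1102337/32*r*p + 4767/4*r + 1200*p^5 - 10741*p^4 + 475479/16*p^3 - 819801/32*p^2 + 233261/32*p - 2217/8 := by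
  rw [h.h63, h.v53, h.v52]
  ring

theorem StageB.v64 {r p : ℂ} {s : ℕ → ℕ → ℂ} (h : StageB r p s) :
    s 6 4 = -9375/256*r^8*p^9 + 5625/8*r^8*p^8 - 22125/4*r^8*p^7 + 22950*r^8*p^6 - 54090*r^8*p^5 + 73440*r^8*p^4 - 56640*r^8*p^3 + 23040*r^8*p^2 - 3840*r^8*p + 33375/256*r^7*p^8 - 18425/8*r^7*p^7 + 262305/16*r^7*p^6 - 119901/2*r^7*p^5 + 119169*r^7*p^4 - 126480*r^7*p^3 + 67056*r^7*p^2 - 13952*r^7*p - 19125/64*r^6*p^8 + 80025/16*r^6*p^7 - 1065395/32*r^6*p^6 + 446315/4*r^6*p^5 - 786659/4*r^6*p^4 + 175412*r^6*p^3 - 73376*r^6*p^2 + 11648*r^6*p - 448*r^6 + 50125/64*r^5*p^7 - 1563825/128*r^5*p^6 + 1201645/16*r^5*p^5 - 914519/4*r^5*p^4 + 353530*r^5*p^3 - 254051*r^5*p^2 + 68616*r^5*p - 1232*r^5 - 1975/2*r^4*p^7 + 467205/32*r^4*p^6 - 21260015/256*r^4*p^5 + 449607/2*r^4*p^4 - 287659*r^4*p^3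 + 591917/4*r^4*p^2 - 23004*r^4*p + 1832*r^4 + 26795/16*r^3*p^6 - 735047/32*r^3*p^5 + 30758579/256*r^3*p^4 - 4711827/16*r^3*p^3 + 5254751/16*r^3*p^2 - 127084*r^3*p + 4876*r^3 - 1630*r^2*p^6 + 345245/16*r^2*p^5 - 6763201/64*r^2*p^4 + 29382703/128*r^2*p^3 - 6528097/32*r^2*p^2 + 209333/4*r^2*p - 4044*r^2 + 1304*r*p^5 - 250427/16*r*p^4 + 4354529/64*r*p^3 - 2008675/16*r*p^2 + 82789*r*p - 5024*r - 1200*p^5 + 14074*p^4 - 917045/16*p^3 + 1433843/16*p^2 - 284239/8*p + 4625/2 := by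
  rw [h.h64, h.v54, h.v53]
  ring

theorem StageB.v65 {r p : ℂ} {s : ℕ → ℕ → ℂ} (h : StageB r p s) :
    s 6 5 = 625/256*r^8*p^9 - 375/8*r^8*p^8 + 1475/4*r^8*p^7 - 1530*r^8*p^6 + 3606*r^8*p^5 - 4896*r^8*p^4 + 3776*r^8*p^3 - 1536*r^8*p^2 + 256*r^8*p - 2375/256*r^7*p^8 + 10425/64*r^7*p^7 - 18435/16*r^7*p^6 + 16749/4*r^7*p^5 - 8277*r^7*p^4 + 8748*r^7*p^3 - 4624*r^7*p^2 + 960*r^7*p + 125/4*r^6*p^8 - 70475/128*r^6*p^7 + 124495/32*r^6*p^6 - 224031/16*r^6*p^5 + 107913/4*r^6*p^4 - 27108*r^6*p^3 + 13408*r^6*p^2 - 2672*r^6*p + 64*r^6 - 175/2*r^5*p^7 + 182545/128*r^5*p^6 - 36699/4*r^5*p^5 + 468115/16*r^5*p^4 - 189553/4*r^5*p^3 + 35643*r^5*p^2 - 10092*r^5*p + 192*r^5 + 2525/16*r^4*p^7 - 41415/16*r^4*p^6 + 4267061/256*r^4*p^5 - 1683763/32*r^4*p^4 + 1318983/16*r^4*p^3 - 229101/4*r^4*p^2 + 14920*r^4*p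 - 704*r^4 - 4545/16*r^3*p^6 + 68991/16*r^3*p^5 - 6463819/256*r^3*p^4 + 4486599/64*r^3*p^3 - 357389/4*r^3*p^2 + 39144*r^3*p - 1728*r^3 + 815/2*r^2*p^6 - 100921/16*r^2*p^5 + 601111/16*r^2*p^4 - 1687633/16*r^2*p^3 + 267973/2*r^2*p^2 - 56289*r^2*p + 3996*r^2 - 326*r*p^5 + 73873/16*r*p^4 - 393383/16*r*p^3 + 939783/16*r*p^2 - 219311/4*r*p + 4892*r + 600*p^5 - 17407/2*p^4 + 190239/4*p^3 - 468161/4*p^2 + 113919*p - 13160 := by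
  rw [h.h65, h.v55, h.v54]
  ring

theorem StageB.v66 {r p : ℂ} {s : ℕ → ℕ → ℂ} (h : StageB r p s) :
    s 6 6 = -120*p^5 + 2074*p^4 - 14313*p^3 + 49306*p^2 - 84792*p + 58240 := by
  rw [h.h66, h.v55]
  ring

theorem StageB.v71 {r p : ℂ} {s : ℕ → ℕ → ℂ} (h : StageB r p s) :
    s 7 1 = 46875/128*r^10*p^11 - 140625/16*r^10*p^10 + 721875/8*r^10*p^9 - 517500*r^10*p^8 + 1819500*r^10*p^7 - 4065120*r^10*p^6 + 5822400*r^10*p^5 - 5299200*r^10*p^4 + 2956800*r^10*p^3 - 921600*r^10*p^2 + 122880*r^10*p - 46875/32*r^9*p^10 + 1040625/32*r^9*p^9 - 305625*r^9*p^8 + 1581750*r^9*p^7 - 4917600*r^9*p^6 + 9428400*r^9*p^5 - 11078400*r^9*p^4 + 7718400*r^9*p^3 - 2918400*r^9*p^2 + 460800*r^9*p + 273125/128*r^8*p^10 - 5178375/128*r^8*p^9 + 1238525/4*r^8*p^8 - 4822755/4*r^8*p^7 + 2413194*r^8*p^6 - 1881504*r^8*p^5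 - 1192576*r^8*p^4 + 3289536*r^8*p^3 - 2195456*r^8*p^2 + 499200*r^8*p - 54625/8*r^7*p^9 + 491175/4*r^7*p^8 - 7196505/8*r^7*p^7 + 3443496*r^7*p^6 - 7354005*r^7*p^5 + 8692944*r^7*p^4 - 5317888*r^7*p^3 + 1381632*r^7*p^2 - 57600*r^7*p + 315125/64*r^6*p^9 - 2279825/32*r^6*p^8 + 24324375/64*r^6*p^7 - 6711381/8*r^6*p^6 + 262956*r^6*p^5 + 1907904*r^6*p^4 - 3078278*r^6*p^3 + 1760656*r^6*p^2 - 333600*r^6*p - 189075/16*r^5*p^8 + 2640175/16*r^5*p^7 - 14259027/16*r^5*p^6 + 37436195/16*r^5*p^5 - 3085767*r^5*p^4 + 1900104*r^5*p^3 - 390312*r^5*p^2 - 24840*r^5*p + 22525/4*r^4*p^8 - 3800175/64*r^4*p^7 + 12977855/64*r^4*p^6 - 11139255/64*r^4*p^5 - 1432121/4*r^4*p^4 + 3183459/4*r^4*p^3 - 515316*r^4*p^2 + 104250*r^4*p - 9010*r^3*p^7 + 731131/8*r^3*p^6 - 672699/2*r^3*p^5 + 1117653/2*r^3*p^4 - 3441489/8*r^3*p^3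 + 131160*r^3*p^2 - 5625*r^3*p + 3195*r^2*p^7 - 45989/2*r^2*p^6 + 3070575/64*r^2*p^5 - 580033/32*r^2*p^4 - 5954745/128*r^2*p^3 + 827275/16*r^2*p^2 - 121875/8*r^2*p - 2556*r*p^6 + 16678*r*p^5 - 621555/16*r*p^4 + 676475/16*r*p^3 - 702375/32*r*p^2 + 140625/32*r*p + 720*p^6 - 3195*p^5 + 22525/4*p^4 - 315125/64*p^3 + 273125/128*p^2 - 46875/128*p := by
  rw [h.h71, h.v61]
  ring

theorem StageB.v72 {r p : ℂ} {s : ℕ → ℕ → ℂ} (h : StageB r p s) :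
    s 7 2 = -140625/128*r^10*p^11 + 421875/16*r^10*p^10 - 2165625/8*r^10*p^9 + 1552500*r^10*p^8 - 5458500*r^10*p^7 + 12195360*r^10*p^6 - 17467200*r^10*p^5 + 15897600*r^10*p^4 - 8870400*r^10*p^3 + 2764800*r^10*p^2 - 368640*r^10*p + 575625/128*r^9*p^10 - 3211125/32*r^9*p^9 + 1896225/2*r^9*p^8 - 4933410*r^9*p^7 + 15418332*r^9*p^6 - 29702448*r^9*p^5 + 35038848*r^9*p^4 - 24488448*r^9*p^3 + 9282048*r^9*p^2 - 1468416*r^9*p - 901875/128*r^8*p^10 + 140899375/1024*r^8*p^9 - 70290275/64*r^8*p^8 + 292376985/64*r^8*p^7 - 82869231/8*r^8*p^6 + 46876593/4*r^8*p^5 - 3339144*r^8*p^4 - 5406628*r^8*p^3 + 5079200*r^8*p^2 - 1281024*r^8*p - 6144*r^8 + 5884375/256*r^7*p^9 - 218926475/512*r^7*p^8 + 837012955/256*r^7*p^7 - 211785507/16*r^7*p^6 + 244004763/8*r^7*p^5 - 80351913/2*r^7*p^4 + 29036627*r^7*p^3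 - 10388432*r^7*p^2 + 1393472*r^7*p - 18432*r^7 - 1168875/64*r^6*p^9 + 36606075/128*r^6*p^8 - 1763980625/1024*r^6*p^7 + 1232201225/256*r^6*p^6 - 333937419/64*r^6*p^5 - 20813871/8*r^6*p^4 + 42925709/4*r^6*p^3 - 8251585*r^6*p^2 + 2035212*r^6*p - 12256*r^6 + 2845075/64*r^5*p^8 - 172105385/256*r^5*p^7 + 2060976997/512*r^5*p^6 - 1549920081/128*r^5*p^5 + 306782805/16*r^5*p^4 - 244211519/16*r^5*p^3 + 5184126*r^5*p^2 - 425015*r^5*p + 8712*r^5 - 95925/4*r^4*p^8 + 18945335/64*r^4*p^7 - 167230581/128*r^4*p^6 + 2301340045/1024*r^4*p^5 - 26173317/128*r^4*p^4 - 227474955/64*r^4*p^3 + 55102539/16*r^4*p^2 - 910529*r^4*p + 7981*r^4 + 154645/4*r^3*p^7 - 1832009/4*r^3*p^6 + 523628429/256*r^3*p^5 - 2187519125/512*r^3*p^4 + 1075761687/256*r^3*p^3 - 55491509/32*r^3*p^2 + 3139925/16*r^3*p - 3000*r^3 - 15975*r^2*p^7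 + 608181/4*r^2*p^6 - 30742019/64*r^2*p^5 + 65612789/128*r^2*p^4 + 70743421/1024*r^2*p^3 - 98056339/256*r^2*p^2 + 9749245/64*r^2*p - 23355/16*r^2 + 12780*r*p^6 - 446485/4*r*p^5 + 22058557/64*r*p^4 - 117400571/256*r*p^3 + 140866711/512*r*p^2 - 1999011/32*r*p + 24165/32*r - 4320*p^6 + 30699*p^5 - 69288*p^4 + 4514679/64*p^3 - 543789/16*p^2 + 206949/32*p - 693/8 := by
  rw [h.h72, h.v62, h.v61]
  ring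

theorem StageB.v73 {r p : ℂ} {s : ℕ → ℕ → ℂ} (h : StageB r p s) :
    s 7 3 = 609375/512*r^10*p^11 - 1828125/64*r^10*p^10 + 9384375/32*r^10*p^9 - 1681875*r^10*p^8 + 5913375*r^10*p^7 - 13211640*r^10*p^6 + 18922800*r^10*p^5 - 17222400*r^10*p^4 + 9609600*r^10*p^3 - 2995200*r^10*p^2 + 399360*r^10*p - 5125625/1024*r^9*p^10 + 14354625/128*r^9*p^9 - 17023975/16*r^9*p^8 + 5559570*r^9*p^7 - 34890603/2*r^9*p^6 + 33729444*r^9*p^5 - 39908464*r^9*p^4 + 27957504*r^9*p^3 - 10616384*r^9*p^2 + 1681920*r^9*p + 550625/64*r^8*p^10 - 177347125/1024*r^8*p^9 + 368595925/256*r^8*p^8 - 50803165/8*r^8*p^7 + 253337055/16*r^8*p^6 - 21777828*r^8*p^5 + 14179615*r^8*p^4 - 1186832*r^8*p^3 - 3007216*r^8*p^2 + 1008704*r^8*p + 15360*r^8 - 3677625/128*r^7*p^9 + 565731925/1024*r^7*p^8 - 1126006565/256*r^7*p^7 + 1197871283/64*r^7*p^6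 - 45896775*r^7*p^5 + 261448139/4*r^7*p^4 - 52125609*r^7*p^3 + 21330724*r^7*p^2 - 3523744*r^7*p + 49920*r^7 + 410125/16*r^6*p^9 - 55355725/128*r^6*p^8 + 2960003575/1024*r^6*p^7 - 305398867/32*r^6*p^6 + 977584111/64*r^6*p^5 - 59647695/8*r^6*p^4 - 33705785/4*r^6*p^3 + 10837857*r^6*p^2 - 3276028*r^6*p + 12400*r^6 - 4066375/64*r^5*p^8 + 132479985/128*r^5*p^7 - 6950276549/1024*r^5*p^6 + 2925857249/128*r^5*p^5 - 167030651/4*r^5*p^4 + 321400913/8*r^5*p^3 - 36566615/2*r^5*p^2 + 3036149*r^5*p - 79928*r^5 + 79225/2*r^4*p^8 - 35869275/64*r^4*p^7 + 384371741/128*r^4*p^6 - 7479541887/1024*r^4*p^5 + 1731610613/256*r^4*p^4 + 16226913/8*r^4*p^3 - 105577991/16*r^4*p^2 + 10343655/4*r^4*p - 40224*r^4 - 64545*r^3*p^7 + 27982501/32*r^3*p^6 - 587618079/128*r^3*p^5 + 11956806463/1024*r^3*p^4 - 3748091001/256*r^3*p^3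 + 520869293/64*r^3*p^2 - 11740757/8*r^3*p + 159423/4*r^3 + 31950*r^2*p^7 - 378236*r^2*p^6 + 51575327/32*r^2*p^5 - 366512979/128*r^2*p^4 + 1620548199/1024*r^2*p^3 + 77635693/128*r^2*p^2 - 34842901/64*r^2*p + 84327/8*r^2 - 25560*r*p^6 + 279705*r*p^5 - 71497219/64*r*p^4 + 251815079/128*r*p^3 - 746843371/512*r*p^2 + 50219965/128*r*p - 164223/16*r + 10800*p^6 - 105570*p^5 + 692247/2*p^4 - 28537431/64*p^3 + 32104449/128*p^2 - 6973389/128*p + 49833/32 := by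
  rw [h.h73, h.v63, h.v62]
  ring

theorem StageB.v74 {r p : ℂ} {s : ℕ → ℕ → ℂ} (h : StageB r p s) :
    s 7 4 = -140625/256*r^10*p^11 + 421875/32*r^10*p^10 - 2165625/16*r^10*p^9 + 776250*r^10*p^8 - 2729250*r^10*p^7 + 6097680*r^10*p^6 - 8733600*r^10*p^5 + 7948800*r^10*p^4 - 4435200*r^10*p^3 + 1382400*r^10*p^2 - 184320*r^10*p + 305625/128*r^9*p^10 - 6864875/128*r^9*p^9 + 2040675/4*r^9*p^8 - 5345305/2*r^9*p^7 + 8407368*r^9*p^6 - 16291428*r^9*p^5 + 19311168*r^9*p^4 - 13547648*r^9*p^3 + 5150208*r^9*p^2 - 816640*r^9*p - 298125/64*r^8*p^10 + 3096625/32*r^8*p^9 - 26795125/32*r^8*p^8 + 31165365/8*r^8*p^7 - 83919401/8*r^8*p^6 + 16382355*r^8*p^5 - 14058966*r^8*p^4 + 5718592*r^8*p^3 - 522208*r^8*p^2 - 162048*r^8*p - 12800*r^8 + 4101625/256*r^7*p^9 - 2545475/8*r^7*p^8 + 10522475/4*r^7*p^7 -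 374394423/32*r^7*p^6 + 120820897/4*r^7*p^5 - 45628372*r^7*p^4 + 38875776*r^7*p^3 - 17178840*r^7*p^2 + 3116480*r^7*p - 44800*r^7 - 264875/16*r^6*p^9 + 38394625/128*r^6*p^8 - 281454245/128*r^6*p^7 + 529400527/64*r^6*p^6 - 529622523/32*r^6*p^5 + 15853846*r^6*p^4 - 3635640*r^6*p^3 - 3666810*r^6*p^2 + 1711656*r^6*p + 13088*r^6 + 2691675/64*r^5*p^8 - 188019565/256*r^5*p^7 + 20902011/4*r^5*p^6 - 2481150971/128*r^5*p^5 + 1272887109/32*r^5*p^4 - 176524447/4*r^5*p^3 + 24011670*r^5*p^2 - 5128568*r^5*p + 147568*r^5 - 62525/2*r^4*p^8 + 31937565/64*r^4*p^7 - 200265385/64*r^4*p^6 + 153506771/16*r^4*p^5 - 455595879/32*r^4*p^4 + 243062761/32*r^4*p^3 + 16177133/8*r^4*p^2 - 2093899*r^4*p + 11740*r^4 + 103535/2*r^3*p^7 - 25256311/32*r^3*p^6 + 1218643407/256*r^3*p^5 - 228963685/16*r^3*p^4 + 1412938881/64*r^3*p^3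 - 256230649/16*r^3*p^2 + 4250849*r^3*p - 170176*r^3 - 31950*r^2*p^7 + 904763/2*r^2*p^6 - 77852799/32*r^2*p^5 + 776063017/128*r^2*p^4 - 1699864421/256*r^2*p^3 + 130364471/64*r^2*p^2 + 4009031/8*r^2*p - 16203/2*r^2 + 25560*r*p^6 - 672335/2*r*p^5 + 107002515/64*r*p^4 - 984830875/256*r*p^3 + 505387871/128*r*p^2 - 43801517/32*r*p + 59747*r - 14400*p^6 + 179190*p^5 - 804239*p^4 + 98013581/64*p^3 - 71153807/64*p^2 + 9324057/32*p - 108899/8 := by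
  rw [h.h74, h.v64, h.v63]
  ring

theorem StageB.v75 {r p : ℂ} {s : ℕ → ℕ → ℂ} (h : StageB r p s) :
    s 7 5 = 96875/1024*r^10*p^11 - 290625/128*r^10*p^10 + 1491875/64*r^10*p^9 - 267375/2*r^10*p^8 + 940075/2*r^10*p^7 - 1050156*r^10*p^6 + 1504120*r^10*p^5 - 1368960*r^10*p^4 + 763840*r^10*p^3 - 238080*r^10*p^2 + 31744*r^10*p - 439375/1024*r^9*p^10 + 1233875/128*r^9*p^9 - 1467425/16*r^9*p^8 + 480560*r^9*p^7 - 3023949/2*r^9*p^6 + 2930316*r^9*p^5 - 3473936*r^9*p^4 + 2437376*r^9*p^3 - 926656*r^9*p^2 + 146944*r^9*p + 130625/128*r^8*p^10 - 22440125/1024*r^8*p^9 + 50528625/256*r^8*p^8 - 15447955/16*r^8*p^7 + 22218681/8*r^8*p^6 - 9533661/2*r^8*p^5 + 4770392*r^8*p^4 - 2644816*r^8*p^3 + 724320*r^8*p^2 - 76352*r^8*p + 3840*r^8 - 116875/32*r^7*p^9 + 76587625/1024*r^7*p^8 - 163818075/256*r^7*p^7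 + 94609055/32*r^7*p^6 - 127344599/16*r^7*p^5 + 25155521/2*r^7*p^4 - 11238321*r^7*p^3 + 5226648*r^7*p^2 - 1002704*r^7*p + 14400*r^7 + 297375/64*r^6*p^9 - 11549875/128*r^6*p^8 + 737301265/1024*r^6*p^7 - 96740379/32*r^6*p^6 + 453323769/64*r^6*p^5 - 144033815/16*r^6*p^4 + 5486397*r^6*p^3 - 1130070*r^6*p^2 - 58672*r^6*p - 16592*r^6 - 783025/64*r^5*p^8 + 7295845/32*r^5*p^7 - 1787504101/1024*r^5*p^6 + 225269703/32*r^5*p^5 - 508717497/32*r^5*p^4 + 314680955/16*r^5*p^3 - 12059672*r^5*p^2 + 2947687*r^5*p - 88992*r^5 + 45825/4*r^4*p^8 - 6523885/32*r^4*p^7 + 187090091/128*r^4*p^6 - 5474343047/1024*r^4*p^5 + 2648913569/256*r^4*p^4 - 39128189/4*r^4*p^3 + 54394537/16*r^4*p^2 - 101902*r^4*p + 44200*r^4 - 19495*r^3*p^7 + 10566787/32*r^3*p^6 - 71945587/32*r^3*p^5 + 7981536571/1024*r^3*p^4 - 3657874355/256*r^3*p^3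 + 102723757/8*r^3*p^2 - 4365368*r^3*p + 210384*r^3 + 15975*r^2*p^7 - 526527/2*r^2*p^6 + 109574435/64*r^2*p^5 - 703437593/128*r^2*p^4 + 1127876873/128*r^2*p^3 - 197341879/32*r^2*p^2 + 5124633/4*r^2*p - 110187*r^2 - 12780*r*p^6 + 196315*r*p^5 - 75316501/64*r*p^4 + 109281945/32*r*p^3 - 304071063/64*r*p^2 + 40851275/16*r*p - 174491*r + 10800*p^6 - 163215*p^5 + 3777549/4*p^4 - 20404509/8*p^3 + 12167811/4*p^2 - 8762241/8*p + 156345/2 := by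
  rw [h.h75, h.v65, h.v64]
  ring

theorem StageB.v76 {r p : ℂ} {s : ℕ → ℕ → ℂ} (h : StageB r p s) :
    s 7 6 = -3125/1024*r^10*p^11 + 9375/128*r^10*p^10 - 48125/64*r^10*p^9 + 8625/2*r^10*p^8 - 30325/2*r^10*p^7 + 33876*r^10*p^6 - 48520*r^10*p^5 + 44160*r^10*p^4 - 24640*r^10*p^3 + 7680*r^10*p^2 - 1024*r^10*p + 1875/128*r^9*p^10 - 83875/256*r^9*p^9 + 24825/8*r^9*p^8 - 64745/4*r^9*p^7 + 50706*r^9*p^6 - 97890*r^9*p^5 + 115680*r^9*p^4 - 80960*r^9*p^3 + 30720*r^9*p^2 - 4864*r^9*p - 6875/128*r^8*p^10 + 1222875/1024*r^8*p^9 - 2867425/256*r^8*p^8 + 1840345/32*r^8*p^7 - 351379/2*r^8*p^6 + 326163*r^8*p^5 - 363854*r^8*p^4 + 236184*r^8*p^3 - 82304*r^8*p^2 + 12352*r^8*p - 256*r^8 + 26125/128*r^7*p^9 - 548325/128*r^7*p^8 + 4814285/128*r^7*p^7 - 2856897/16*r^7*p^6 + 494615*r^7*p^5 - 805738*r^7*p^4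 + 743922*r^7*p^3 - 358576*r^7*p^2 + 71488*r^7*p - 1024*r^7 - 24625/64*r^6*p^9 + 128025/16*r^6*p^8 - 70880255/1024*r^6*p^7 + 20530113/64*r^6*p^6 - 54659949/64*r^6*p^5 + 1302632*r^6*p^4 - 2161097/2*r^6*p^3 + 448506*r^6*p^2 - 77120*r^6*p + 3328*r^6 + 34475/32*r^5*p^8 - 1361145/64*r^5*p^7 + 5546549/32*r^5*p^6 - 191450967/256*r^5*p^5 + 29060625/16*r^5*p^4 - 9713555/4*r^5*p^3 + 1615576*r^5*p^2 - 430496*r^5*p + 13568*r^5 - 5825/4*r^4*p^8 + 114645/4*r^4*p^7 - 29656191/128*r^4*p^6 + 1006339625/1024*r^4*p^5 - 591095729/256*r^4*p^4 + 11585889/4*r^4*p^3 - 1707381*r^4*p^2 + 393020*r^4*p - 23152*r^4 + 10485/4*r^3*p^7 - 1561429/32*r^3*p^6 + 47317245/128*r^3*p^5 - 92616705/64*r^3*p^4 + 24374689/8*r^3*p^3 - 6396287/2*r^3*p^2 + 1272062*r^3*p - 70112*r^3 - 3195*r^2*p^7 + 240269/4*r^2*p^6 - 29348047/64*r^2*p^5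 + 115297449/64*r^2*p^4 - 241700685/64*r^2*p^3 + 62113737/16*r^2*p^2 - 1458966*r^2*p + 112992*r^2 + 2556*r*p^6 - 179637/4*r*p^5 + 5059717/16*r*p^4 - 17904867/16*r*p^3 + 2008265*r*p^2 - 1525233*r*p + 150480*r - 4320*p^6 + 76815*p^5 - 547899*p^4 + 7868655/4*p^3 - 7189407/2*p^2 + 2812770*p - 336000 := by
  rw [h.h76, h.v66, h.v65]
  ring

theorem StageB.v77 {r p : ℂ} {s : ℕ → ℕ → ℂ} (h : StageB r p s) :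
    s 7 7 = 720*p^6 - 14724*p^5 + 125284*p^4 - 567783*p^3 + 1445566*p^2 - 1960488*p + 1106560 := by
  rw [h.h77, h.v66]
  ring

theorem StageA.eq {r p E : ℂ} {s : ℕ → ℕ → ℂ} (h : StageA r p E s)
    (T4 : s 4 1 + s 4 2 + s 4 3 + s 4 4 = 256)
    (T5 : s 5 1 + s 5 2 + s 5 3 + s 5 4 + s 5 5 = 3125) :
    E = 4*(4-p) - 4*r*(3-p) + r^2*(5*p-4)*(4-p) := by
  rw [h.v41, h.v42, h.v43, h.v44] at T4
  rw [h.v51, h.v52, h.v53, h.v54, h.v55] at T5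
  linear_combination 8*T5 - 8*(r*p - 3*r - p - 1/4*E + 153/4)*T4

theorem StageB.eq4 {r p : ℂ} {s : ℕ → ℕ → ℂ} (h : StageB r p s)
    (T4 : s 4 1 + s 4 2 + s 4 3 + s 4 4 = 256) :
    -5*r^3*p^3 + 24*r^3*p^2 - 16*r^3*p + 4*r^2*p^2 - 12*r^2*p - r*p + 4*r + 2 = 0 := by
  rw [h.v41, h.v42, h.v43, h.v44] at T4
  linear_combination 4*T4

theorem StageB.eq6 {r p : ℂ} {s : ℕ → ℕ → ℂ} (h : StageB r p s)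
    (T4 : s 4 1 + s 4 2 + s 4 3 + s 4 4 = 256)
    (T6 : s 6 1 + s 6 2 + s 6 3 + s 6 4 + s 6 5 + s 6 6 = 46656) :
    -20*r^4*p^2 + 96*r^4*p - 64*r^4 - 10*r^3*p^2 + 64*r^3*p - 80*r^3 + 3*r^2*p^2 - 12*r^2*p + 4*r^2 - 6*r*p + 22*r + 3 = 0 := by
  have h4 := h.eq4 T4
  rw [h.v61, h.v62, h.v63, h.v64, h.v65, h.v66] at T6
  linear_combination (-4)*T6 + 4*(25/64*r^4*p^4 - 15/4*r^4*p^3 + 23/2*r^4*p^2 - 12*r^4*p + 4*r^4 - 5/64*r^3*p^3 - 7/8*r^3*p^2 + 23/4*r^3*p - 4*r^3 + 971/64*r^2*p^2 - 1145/16*r^2*p + 179/4*r^2 - 51/64*r*p + 47/16*r + 3813/16)*h4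

theorem StageB.eq7 {r p : ℂ} {s : ℕ → ℕ → ℂ} (h : StageB r p s)
    (T4 : s 4 1 + s 4 2 + s 4 3 + s 4 4 = 256)
    (T7 : s 7 1 + s 7 2 + s 7 3 + s 7 4 + s 7 5 + s 7 6 + s 7 7 = 823543) :
    -4800*r^6*p^2 + 23040*r^6*p - 15360*r^6 - 3600*r^5*p^2 + 21120*r^5*p - 23040*r^5 - 23800*r^4*p^2 + 115920*r^4*p - 80000*r^4 - 11864*r^3*p^2 + 75296*r^3*p - 91840*r^3 + 3741*r^2*p^2 - 15468*r^2*p + 6920*r^2 - 7554*r*p + 27476*r + 3813 = 0 := by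
  have h4 := h.eq4 T4
  rw [h.v71, h.v72, h.v73, h.v74, h.v75, h.v76, h.v77] at T7
  linear_combination (-80)*T7 + 80*(125/256*r^6*p^6 - 225/32*r^6*p^5 + 615/16*r^6*p^4 - 99*r^6*p^3 + 123*r^6*p^2 - 72*r^6*p + 16*r^6 - 25/256*r^5*p^5 - 85/16*r^5*p^4 + 457/8*r^5*p^3 - 181*r^5*p^2 + 191*r^5*p - 64*r^5 + 3265/128*r^4*p^4 - 15241/64*r^4*p^3 + 697*r^4*p^2 - 2633/4*r^4*p + 192*r^4 - 1923/128*r^3*p^3 + 227/64*r^3*p^2 + 2235/8*r^3*p - 839/4*r^3 + 143973/256*r^2*p^2 - 167213/64*r^2*p + 24893/16*r^2 - 13249/256*r*p + 12153/64*r + 2095271/320)*h4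

theorem cert_r {r q : ℂ} (h4 : -16*r^2*q + 24*r*q^2 - 12*r*q + 4*r - 5*q^3 + 4*q^2 - q + 2 = 0)
    (h6 : -64*r^4 + 96*r^3*q - 80*r^3 - 20*r^2*q^2 + 64*r^2*q + 4*r^2 - 10*r*q^2 - 12*r*q + 22*r + 3*q^2 - 6*q + 3 = 0)
    (h7 : -15360*r^6 + 23040*r^5*q - 23040*r^5 - 4800*r^4*q^2 + 21120*r^4*q - 80000*r^4 - 3600*r^3*q^2 + 115920*r^3*q - 91840*r^3 - 23800*r^2*q^2 + 75296*r^2*q + 6920*r^2 - 11864*r*q^2 - 15468*r*q + 27476*r + 3741*q^2 - 7554*q + 3813 = 0) :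
    r^3 - r^2 = 0 := by
  linear_combination (-6*r^5 + r^4*q - 5*r^4 - 109/4*r^3*q + 147/8*r^3 + 109/16*r^2*q^2 - 653/32*r^2*q + 151/32*r^2 + 109/32*r*q^2 + 927/320*r*q - 2187/320*r - 327/320*q^2 + 1377/640*q - 369/320)*h4 + (-7/2*r^3 - 2*r^2 + 7*r*q^2 - 193/16*r*q - 1687/96*r - 109/64*q^3 + 1091/384*q^2 - 391/384*q - 205/64)*h6 + (1/160*r*q + 7/480*r - 1/960*q^2 + 1/1920*q + 1/320)*h7

theorem cert_q {r q : ℂ} (h4 : -16*r^2*q + 24*r*q^2 - 12*r*q + 4*r - 5*q^3 + 4*q^2 - q + 2 = 0)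
    (h6 : -64*r^4 + 96*r^3*q - 80*r^3 - 20*r^2*q^2 + 64*r^2*q + 4*r^2 - 10*r*q^2 - 12*r*q + 22*r + 3*q^2 - 6*q + 3 = 0)
    (h7 : -15360*r^6 + 23040*r^5*q - 23040*r^5 - 4800*r^4*q^2 + 21120*r^4*q - 80000*r^4 - 3600*r^3*q^2 + 115920*r^3*q - 91840*r^3 - 23800*r^2*q^2 + 75296*r^2*q + 6920*r^2 - 11864*r*q^2 - 15468*r*q + 27476*r + 3741*q^2 - 7554*q + 3813 = 0) :
    r*q - r = 0 := by
  linear_combination (-82/9*r^5 + 23/18*r^4*q - 88/9*r^4 + 145/24*r^3*q - 625/72*r^3 - 37/32*r^2*q^2 + 71/16*r^2*q - 25/32*r^2 - 37/64*r*q^2 - 71/480*r*q + 617/192*r + 111/640*q^2 - 1033/1920*q + 5/16)*h4 + (5/6*r^3 - 4/3*r^2 - 61/48*r*q^2 - 8291/864*r*q + 1067/288*r + 37/128*q^3 + 959/864*q^2 - 13649/3456*q - 9257/1728)*h6 + (41/4320*r*q - 1/288*r - 23/17280*q^2 + 53/17280*q + 7/1728)*h7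

theorem StageB.final {r p : ℂ} {s : ℕ → ℕ → ℂ} (h : StageB r p s)
    (T4 : s 4 1 + s 4 2 + s 4 3 + s 4 4 = 256)
    (T6 : s 6 1 + s 6 2 + s 6 3 + s 6 4 + s 6 5 + s 6 6 = 46656)
    (T7 : s 7 1 + s 7 2 + s 7 3 + s 7 4 + s 7 5 + s 7 6 + s 7 7 = 823543) : r = 1 ∧ p = 1 := by
  have h4 := h.eq4 T4
  have h6 := h.eq6 T4 T6
  have h7 := h.eq7 T4 T7
  have hr0 : r ≠ 0 := by
    rintro rfl
    norm_num at h4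
  have g4 : -16*r^2*(r*p) + 24*r*(r*p)^2 - 12*r*(r*p) + 4*r - 5*(r*p)^3 + 4*(r*p)^2 - (r*p) + 2 = 0 := by
    linear_combination h4
  have g6 : -64*r^4 + 96*r^3*(r*p) - 80*r^3 - 20*r^2*(r*p)^2 + 64*r^2*(r*p) + 4*r^2 - 10*r*(r*p)^2 - 12*r*(r*p) + 22*r + 3*(r*p)^2 - 6*(r*p) + 3 = 0 := by
    linear_combination h6
  have g7 : -15360*r^6 + 23040*r^5*(r*p) - 23040*r^5 - 4800*r^4*(r*p)^2 + 21120*r^4*(r*p) - 80000*r^4 - 3600*r^3*(r*p)^2 + 115920*r^3*(r*p) - 91840*r^3 - 23800*r^2*(r*p)^2 + 75296*r^2*(r*p) + 6920*r^2 - 11864*r*(r*p)^2 - 15468*r*(r*p) + 27476*r + 3741*(r*p)^2 - 7554*(r*p) + 3813 = 0 := by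
    linear_combination h7
  have k1 := cert_r g4 g6 g7
  have k2 := cert_q g4 g6 g7
  have hr1 : r = 1 := by
    have : r^2 * (r - 1) = 0 := by linear_combination k1
    rcases mul_eq_zero.mp this with h' | h'
    · exact absurd (pow_eq_zero_iff (two_ne_zero) |>.mp h') hr0
    · linear_combination h'
  subst hr1
  refine ⟨rfl, ?_⟩
  linear_combination k2

end Pool.Agent.ShorRec
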