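import Pool.Agent.ShorRec.Defs

/-!
Growth of sequences dominated by polynomial products.
-/

namespace Pool.Agent.ShorRec

open Filter Topology

/-- A polynomial of degree larger than `k` eventually beats every multiple of `t ^ k`. -/
theorem eventually_norm_eval_ge (R : Polynomial ℂ) (k : ℕ) (hR : k + 1 ≤ R.natDegree) (M : ℝ) :
    ∀ᶠ t : ℕ in atTop, M * (t : ℝ) ^ k ≤ ‖R.eval (t : ℂ)‖ := by
  set A : Polynomial ℂ := R /ₘ (Polynomial.X ^ k) with hA
  set B : Polynomial ℂ := R %ₘ (Polynomial.X ^ k) with hB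
  have hdec : B + Polynomial.X ^ k * A = R :=
    Polynomial.modByMonic_add_div R (Polynomial.X ^ k)
  have hdeg : A.natDegree = R.natDegree - k := by
    rw [hA, Polynomial.natDegree_divByMonic R (Polynomial.monic_X_pow k),
      Polynomial.natDegree_X_pow]
  have hBdeg : B.natDegree ≤ k := by
    by_cases hk : k = 0
    · subst hk
      simp [hB]
    · have := Polynomial.natDegree_modByMonic_lt R (Polynomial.monic_X_pow k)
        (by
          intro h
          have h2 := congrArg Polynomial.natDegree h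
          simp at h2
          exact hk h2)
      rw [Polynomial.natDegree_X_pow] at this
      exact this.le
  have hApos : 0 < A.degree := by
    rw [← Polynomial.natDegree_pos_iff_degree_pos]
    omega
  have hAt : Tendsto (fun t : ℕ => ‖A.eval (t : ℂ)‖) atTop atTop := by
    apply Polynomial.tendsto_norm_atTop A hApos
    simp only [Complex.norm_natCast]
    exact tendsto_natCast_atTop_atTop
  set K : ℝ := ∑ i ∈ Finset.range (B.natDegree + 1), ‖B.coeff i‖ with hK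
  have hBb : ∀ t : ℕ, 1 ≤ t → ‖B.eval (t : ℂ)‖ ≤ K * (t : ℝ) ^ k := by
    intro t ht
    have ht1 : (1 : ℝ) ≤ t := by exact_mod_cast ht
    rw [Polynomial.eval_eq_sum_range, hK, Finset.sum_mul]
    refine (norm_sum_le _ _).trans (Finset.sum_le_sum ?_)
    intro i hi
    rw [norm_mul, norm_pow, Complex.norm_natCast]
    apply mul_le_mul_of_nonneg_left _ (norm_nonneg _)
    apply pow_le_pow_right₀ ht1
    have := Finset.mem_range.mp hi
    omega
  filter_upwards [hAt.eventually_ge_atTop (M + K), eventually_ge_atTop 1] with t ht ht1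
  have hv : R.eval (t : ℂ) = B.eval (t : ℂ) + (t : ℂ) ^ k * A.eval (t : ℂ) := by
    rw [← hdec]
    simp
  have htk : (0 : ℝ) ≤ (t : ℝ) ^ k := by positivity
  have h1 : ‖(t : ℂ) ^ k * A.eval (t : ℂ)‖ = (t : ℝ) ^ k * ‖A.eval (t : ℂ)‖ := by
    rw [norm_mul, norm_pow, Complex.norm_natCast]
  have h2 : ‖(t : ℂ) ^ k * A.eval (t : ℂ)‖ ≤ ‖R.eval (t : ℂ)‖ + ‖B.eval (t : ℂ)‖ := by
    have : (t : ℂ) ^ k * A.eval (t : ℂ) = R.eval (t : ℂ) - B.eval (t : ℂ) := by
      rw [hv]; ring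
    rw [this]
    exact norm_sub_le _ _
  have h3 := hBb t ht1
  rw [h1] at h2
  have h4 : (t : ℝ) ^ k * (M + K) ≤ (t : ℝ) ^ k * ‖A.eval (t : ℂ)‖ :=
    mul_le_mul_of_nonneg_left ht htk
  nlinarith

/-- The growth of `(k t) ^ (k t)`. -/
theorem pow_self_succ_le (k t : ℕ) (ht : 1 ≤ t) :
    ((k * (t + 1) : ℕ) : ℝ) ^ (k * (t + 1)) ≤
      ((k * t : ℕ) : ℝ) ^ (k * t) * ((2 * Real.exp 1 * k) ^ k * (t : ℝ) ^ k) := by
  have ht1 : (1 : ℝ) ≤ t := by exact_mod_cast ht
  have ht0 : (0 : ℝ) < t := by linarith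
  have e1 : ((k * (t + 1) : ℕ) : ℝ) = (k : ℝ) * t * (1 + 1 / t) := by
    push_cast
    field_simp
  have h1 : (1 + 1 / (t : ℝ)) ^ t ≤ Real.exp 1 := by
    have h := Real.add_one_le_exp (1 / (t : ℝ))
    calc (1 + 1 / (t : ℝ)) ^ t ≤ (Real.exp (1 / (t : ℝ))) ^ t := by
          apply pow_le_pow_left₀ (by positivity)
          linarith
      _ = Real.exp 1 := by
          rw [← Real.exp_nat_mul]
          congr 1
          field_simp
  have h2 : ((k * (t + 1) : ℕ) : ℝ) ^ (k * (t + 1)) =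
      ((k : ℝ) * t) ^ (k * t) * (((1 + 1 / (t : ℝ)) ^ t) ^ k) * ((k : ℝ) * (t + 1)) ^ k := by
    have : k * (t + 1) = k * t + k := by ring
    rw [this, pow_add]
    have e2 : ((k * t + k : ℕ) : ℝ) = (k : ℝ) * (t + 1) := by push_cast; ring
    rw [e2]
    congr 1
    have e3 : (k : ℝ) * (t + 1) = (k : ℝ) * t * (1 + 1 / t) := by
      field_simp
    rw [e3, mul_pow, ← pow_mul, mul_comm t k]
  rw [h2]
  have h3 : ((k : ℝ) * (t + 1)) ^ k ≤ ((k : ℝ) * (2 * t)) ^ k := by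
    apply pow_le_pow_left₀ (by positivity)
    apply mul_le_mul_of_nonneg_left _ (by positivity)
    linarith
  have h4 : ((1 + 1 / (t : ℝ)) ^ t) ^ k ≤ (Real.exp 1) ^ k :=
    pow_le_pow_left₀ (by positivity) h1 k
  have h5 : ((k * t : ℕ) : ℝ) ^ (k * t) * ((2 * Real.exp 1 * k) ^ k * (t : ℝ) ^ k) =
      ((k : ℝ) * t) ^ (k * t) * (Real.exp 1) ^ k * ((k : ℝ) * (2 * t)) ^ k := by
    push_cast
    rw [show (2 * Real.exp 1 * (k : ℝ)) ^ k * (t : ℝ) ^ k
      = (Real.exp 1) ^ k * ((k : ℝ) * (2 * t)) ^ k by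
        rw [← mul_pow, ← mul_pow]; congr 1; ring]
    ring
  rw [h5]
  gcongr

/-- A positive sequence bounded by `(k t) ^ (k t)` cannot grow by a polynomial factor of degree
larger than `k`. -/
theorem growth_contradiction (k N : ℕ) (hN : 1 ≤ N) (R : Polynomial ℂ)
    (hR : k + 1 ≤ R.natDegree)
    (a : ℕ → ℝ) (hpos : ∀ t, N ≤ t → 0 < a t)
    (hle : ∀ t, N ≤ t → a t ≤ ((k * t : ℕ) : ℝ) ^ (k * t))
    (hstep : ∀ t : ℕ, N ≤ t → ‖R.eval (t : ℂ)‖ * a t ≤ a (t + 1)) : False := by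
  have hev := eventually_norm_eval_ge R k hR (2 * (2 * Real.exp 1 * k) ^ k)
  obtain ⟨T, hT⟩ := (hev.and (eventually_ge_atTop N)).exists_forall_of_atTop
  have hT1 : N ≤ T := (hT T le_rfl).2
  have key : ∀ j : ℕ, 2 ^ j * (a T / ((k * T : ℕ) : ℝ) ^ (k * T)) *
      ((k * (T + j) : ℕ) : ℝ) ^ (k * (T + j)) ≤ a (T + j) := by
    intro j
    induction j with
    | zero =>
      have hp : 0 < ((k * T : ℕ) : ℝ) ^ (k * T) := (hpos T hT1).trans_le (hle T hT1)
      simp only [pow_zero, one_mul, add_zero]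
      rw [div_mul_cancel₀ _ hp.ne']
    | succ j ih =>
      have hj1 : N ≤ T + j := by omega
      have h1 := hstep (T + j) hj1
      have h2 := (hT (T + j) (by omega)).1
      have h3 := pow_self_succ_le k (T + j) (by omega)
      have hp : 0 < ((k * T : ℕ) : ℝ) ^ (k * T) := (hpos T hT1).trans_le (hle T hT1)
      have hq : 0 ≤ a T / ((k * T : ℕ) : ℝ) ^ (k * T) := (div_pos (hpos T hT1) hp).le
      have e : T + (j + 1) = T + j + 1 := by ring
      rw [e]
      calc 2 ^ (j + 1) * (a T / ((k * T : ℕ) : ℝ) ^ (k * T)) *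
            ((k * (T + j + 1) : ℕ) : ℝ) ^ (k * (T + j + 1))
          ≤ 2 ^ (j + 1) * (a T / ((k * T : ℕ) : ℝ) ^ (k * T)) *
            (((k * (T + j) : ℕ) : ℝ) ^ (k * (T + j)) *
              ((2 * Real.exp 1 * k) ^ k * ((T + j : ℕ) : ℝ) ^ k)) := by
            apply mul_le_mul_of_nonneg_left h3
            positivity
        _ = (2 * (2 * Real.exp 1 * k) ^ k * ((T + j : ℕ) : ℝ) ^ k) *
            (2 ^ j * (a T / ((k * T : ℕ) : ℝ) ^ (k * T)) *
              ((k * (T + j) : ℕ) : ℝ) ^ (k * (T + j))) := by ring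
        _ ≤ ‖R.eval ((T + j : ℕ) : ℂ)‖ * a (T + j) := by
            apply mul_le_mul h2 ih (by positivity) (norm_nonneg _)
        _ ≤ a (T + j + 1) := h1
  have hp : 0 < ((k * T : ℕ) : ℝ) ^ (k * T) := (hpos T hT1).trans_le (hle T hT1)
  have hq : 0 < a T / ((k * T : ℕ) : ℝ) ^ (k * T) := div_pos (hpos T hT1) hp
  obtain ⟨j, hj⟩ := pow_unbounded_of_one_lt (a T / ((k * T : ℕ) : ℝ) ^ (k * T))⁻¹
    (by norm_num : (1 : ℝ) < 2)
  have h1 := key j
  have h2 := hle (T + j) (by omega)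
  have hp2 : 0 < ((k * (T + j) : ℕ) : ℝ) ^ (k * (T + j)) :=
    (hpos (T + j) (by omega)).trans_le h2
  have h3 : 1 < 2 ^ j * (a T / ((k * T : ℕ) : ℝ) ^ (k * T)) := by
    have := mul_lt_mul_of_pos_right hj hq
    rwa [inv_mul_cancel₀ hq.ne'] at this
  have h4 : ((k * (T + j) : ℕ) : ℝ) ^ (k * (T + j)) <
      2 ^ j * (a T / ((k * T : ℕ) : ℝ) ^ (k * T)) *
      ((k * (T + j) : ℕ) : ℝ) ^ (k * (T + j)) := by
    have := mul_lt_mul_of_pos_right h3 hp2
    rwa [one_mul] at this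
  linarith

end Pool.Agent.ShorRec
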