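import Pool.Agent.ShorRec.Defs
import Pool.Agent.ShorRec.Affine

/-!
Shor's pair is the only admissible pair of polynomials of total degree at most one.
-/

namespace Pool.Agent.ShorRec

open MvPolynomial

theorem linear_unique {P Q : MvPolynomial (Fin 2) ℂ} (hP : P.totalDegree ≤ 1)
    (hQ : Q.totalDegree ≤ 1) (h : Admissible P Q) : P = X 0 ∧ Q = X 0 + X 1 := by
  obtain ⟨a, b, c, rfl⟩ := exists_affine P hP
  obtain ⟨d, e, f, rfl⟩ := exists_affine Q hQ
  have hrec : ∀ m n : ℕ, S (C a + C b * X 0 + C c * X 1) (C d + C e * X 0 + C f * X 1)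
      (m + 1) (n + 1) =
      (a + b * m + c * (n + 1)) * S (C a + C b * X 0 + C c * X 1)
        (C d + C e * X 0 + C f * X 1) m (n + 1) +
      (d + e * m + f * (n + 1)) * S (C a + C b * X 0 + C c * X 1)
        (C d + C e * X 0 + C f * X 1) m n := by
    intro m n
    rw [S_succ_succ, val_affine, val_affine]
    push_cast
    ring
  have key := affine_core (S_zero_zero _ _) (S_succ_zero _ _) (S_eq_zero_of_lt _ _) hrec
    (by simpa [Finset.sum_Icc_succ_top] using h 1 (by norm_num))
    (by have := h 2 (by norm_num); norm_num [Finset.sum_Icc_succ_top] at this; exact this)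
    (by have := h 3 (by norm_num); norm_num [Finset.sum_Icc_succ_top] at this; exact this)
    (by have := h 4 (by norm_num); norm_num [Finset.sum_Icc_succ_top] at this; exact this)
    (by have := h 5 (by norm_num); norm_num [Finset.sum_Icc_succ_top] at this; exact this)
    (by have := h 6 (by norm_num); norm_num [Finset.sum_Icc_succ_top] at this; exact this)
    (by have := h 7 (by norm_num); norm_num [Finset.sum_Icc_succ_top] at this; exact this)
  obtain ⟨rfl, rfl, rfl, rfl, rfl, rfl⟩ := key
  constructor <;> simp

end Pool.Agent.ShorRec
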