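import Pool.Agent.ShorRec.Defs

/-!
Restriction of a polynomial in two variables to a line.
-/

namespace Pool.Agent.ShorRec

open MvPolynomial

/-- The restriction of `F` to the line `t ↦ (α t + β, γ t + δ)`. -/
noncomputable def linePoly (F : MvPolynomial (Fin 2) ℂ) (α β γ δ : ℂ) : Polynomial ℂ :=
  MvPolynomial.aeval ![Polynomial.C α * Polynomial.X + Polynomial.C β,
    Polynomial.C γ * Polynomial.X + Polynomial.C δ] F

theorem eval_linePoly (F : MvPolynomial (Fin 2) ℂ) (α β γ δ t : ℂ) :
    (linePoly F α β γ δ).eval t = MvPolynomial.eval ![α * t + β, γ * t + δ] F := by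
  unfold linePoly
  have h := MvPolynomial.aeval_def (R := ℂ) ![Polynomial.C α * Polynomial.X + Polynomial.C β,
    Polynomial.C γ * Polynomial.X + Polynomial.C δ] F
  rw [← Polynomial.coe_evalRingHom, h, MvPolynomial.hom_eval₂]
  rw [show (Polynomial.evalRingHom t).comp (algebraMap ℂ (Polynomial ℂ)) = RingHom.id ℂ from ?_]
  · rw [MvPolynomial.eval₂_id]
    have hv : (fun i => (Polynomial.evalRingHom t)
        (![Polynomial.C α * Polynomial.X + Polynomial.C β,
          Polynomial.C γ * Polynomial.X + Polynomial.C δ] i)) = ![α * t + β, γ * t + δ] := by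
      ext i
      fin_cases i <;> simp
    rw [hv]
  · ext x
    simp

/-- The value of the top homogeneous component of `F` at a direction. -/
noncomputable def topVal (F : MvPolynomial (Fin 2) ℂ) (α γ : ℂ) : ℂ :=
  MvPolynomial.eval ![α, γ] (homogeneousComponent F.totalDegree F)

theorem coeff_affine_pow (α β : ℂ) (i : ℕ) :
    (((Polynomial.C α * Polynomial.X + Polynomial.C β) ^ i).coeff i = α ^ i) ∧
    ((Polynomial.C α * Polynomial.X + Polynomial.C β) ^ i).natDegree ≤ i := by
  have hd : (Polynomial.C α * Polynomial.X + Polynomial.C β).natDegree ≤ 1 := by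
    compute_degree
  constructor
  · have := Polynomial.coeff_pow_of_natDegree_le (m := i) hd
    rw [mul_one] at this
    rw [this]
    simp
  · refine (Polynomial.natDegree_pow_le_of_le i hd).trans ?_
    omega

theorem coeff_line_monomial (α β γ δ : ℂ) (i j : ℕ) :
    ((Polynomial.C α * Polynomial.X + Polynomial.C β) ^ i *
      (Polynomial.C γ * Polynomial.X + Polynomial.C δ) ^ j).coeff (i + j) = α ^ i * γ ^ j ∧
    ((Polynomial.C α * Polynomial.X + Polynomial.C β) ^ i *
      (Polynomial.C γ * Polynomial.X + Polynomial.C δ) ^ j).natDegree ≤ i + j := by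
  obtain ⟨h1, h2⟩ := coeff_affine_pow α β i
  obtain ⟨h3, h4⟩ := coeff_affine_pow γ δ j
  constructor
  · rw [Polynomial.coeff_mul_add_eq_of_natDegree_le h2 h4, h1, h3]
  · exact Polynomial.natDegree_mul_le.trans (add_le_add h2 h4)

theorem coeff_linePoly (F : MvPolynomial (Fin 2) ℂ) (α β γ δ : ℂ) (d : ℕ)
    (hd : F.totalDegree ≤ d) :
    (linePoly F α β γ δ).coeff d = MvPolynomial.eval ![α, γ] (homogeneousComponent d F) := by
  have hF : linePoly F α β γ δ = ∑ s ∈ F.support, Polynomial.C (F.coeff s) *
      ((Polynomial.C α * Polynomial.X + Polynomial.C β) ^ (s 0) *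
      (Polynomial.C γ * Polynomial.X + Polynomial.C δ) ^ (s 1)) := by
    unfold linePoly
    rw [MvPolynomial.aeval_def, MvPolynomial.eval₂_eq']
    apply Finset.sum_congr rfl
    intro s _
    rw [Fin.prod_univ_two]
    simp
  rw [hF, Polynomial.finsetSum_coeff, homogeneousComponent_apply, map_sum,
    Finset.sum_filter]
  apply Finset.sum_congr rfl
  intro s hs
  rw [Polynomial.coeff_C_mul]
  obtain ⟨h1, h2⟩ := coeff_line_monomial α β γ δ (s 0) (s 1)
  have hdeg : s.degree = s 0 + s 1 := by
    rw [Finsupp.degree_eq_sum, Fin.sum_univ_two]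
  have hle : s.degree ≤ d := (le_totalDegree hs).trans hd
  split_ifs with h
  · rw [show d = s 0 + s 1 by omega, h1, MvPolynomial.eval_monomial]
    rw [Finsupp.prod_fintype _ _ (by intro i; simp), Fin.prod_univ_two]
    simp
  · rw [Polynomial.coeff_eq_zero_of_natDegree_lt (by omega), mul_zero]

theorem natDegree_linePoly_ge (F : MvPolynomial (Fin 2) ℂ) (α β γ δ : ℂ)
    (h : topVal F α γ ≠ 0) : F.totalDegree ≤ (linePoly F α β γ δ).natDegree := by
  apply Polynomial.le_natDegree_of_ne_zero
  rw [coeff_linePoly F α β γ δ _ le_rfl]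
  exact h

theorem linePoly_ne_zero (F : MvPolynomial (Fin 2) ℂ) (α β γ δ : ℂ)
    (h : topVal F α γ ≠ 0) : linePoly F α β γ δ ≠ 0 := by
  intro h0
  have := coeff_linePoly F α β γ δ _ le_rfl
  rw [h0] at this
  exact h (by simpa [topVal] using this.symm)

/-- The top component of a nonzero polynomial is nonzero. -/
theorem top_ne_zero (F : MvPolynomial (Fin 2) ℂ) (hF : F ≠ 0) :
    homogeneousComponent F.totalDegree F ≠ 0 := by
  intro h
  obtain ⟨s, hs, hdeg⟩ : ∃ s ∈ F.support, s.degree = F.totalDegree := by
    obtain ⟨s, hs, h2⟩ := Finset.exists_mem_eq_sup F.support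
      (MvPolynomial.support_nonempty.mpr hF) (fun s => s.sum fun _ e => e)
    refine ⟨s, hs, ?_⟩
    unfold MvPolynomial.totalDegree
    rw [h2]
    rfl
  have hc := congrArg (MvPolynomial.coeff s) h
  rw [coeff_homogeneousComponent, if_pos hdeg] at hc
  exact (MvPolynomial.mem_support_iff.mp hs) (by simpa using hc)

theorem homog_eval_smul {H : MvPolynomial (Fin 2) ℂ} {d : ℕ} (hH : H.IsHomogeneous d)
    (c x y : ℂ) : MvPolynomial.eval ![c * x, c * y] H = c ^ d * MvPolynomial.eval ![x, y] H := by
  rw [MvPolynomial.eval_eq', MvPolynomial.eval_eq', Finset.mul_sum]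
  apply Finset.sum_congr rfl
  intro s hs
  rw [Fin.prod_univ_two, Fin.prod_univ_two]
  have hdeg : s.degree = s 0 + s 1 := by
    rw [Finsupp.degree_eq_sum, Fin.sum_univ_two]
  have hd : s.degree = d := by
    have := hH (MvPolynomial.mem_support_iff.mp hs)
    rw [← this]
    exact congrArg (fun f => f s) (Finsupp.degree_eq_weight_one (R := ℕ))
  rw [← hd, hdeg]
  simp only [Matrix.cons_val_zero, Matrix.cons_val_one]
  rw [mul_pow, mul_pow, pow_add]
  ring

/-- A nonzero form vanishes at `(k, 1)` for finitely many `k` only. -/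
theorem finite_bad_one (F : MvPolynomial (Fin 2) ℂ) (hF : F ≠ 0) :
    {k : ℕ | topVal F (k : ℂ) 1 = 0}.Finite := by
  set H := homogeneousComponent F.totalDegree F with hH
  have hH0 : H ≠ 0 := top_ne_zero F hF
  have hhom : H.IsHomogeneous F.totalDegree := homogeneousComponent_isHomogeneous _ _
  set g : Polynomial ℂ := MvPolynomial.aeval ![Polynomial.X, (1 : Polynomial ℂ)] H with hg
  have hgev : ∀ t : ℂ, g.eval t = MvPolynomial.eval ![t, 1] H := by
    intro t
    have := eval_linePoly H 1 0 0 1 t
    simp [linePoly] at this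
    rw [hg, this]
  have hg0 : g ≠ 0 := by
    intro h0
    apply hH0
    have h1 : ∀ x : Fin 2 → ℂ, MvPolynomial.eval x (X 1 * H) = MvPolynomial.eval x 0 := by
      intro x
      rw [map_mul, map_zero, MvPolynomial.eval_X]
      by_cases hy : x 1 = 0
      · rw [hy, zero_mul]
      · have hx : x = ![x 1 * (x 0 / x 1), x 1 * 1] := by
          ext i
          fin_cases i
          · simp; field_simp
          · simp
        have h2 := homog_eval_smul hhom (x 1) (x 0 / x 1) 1
        rw [← hx, ← hgev, h0] at h2
        rw [h2]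
        simp
    have h2 := MvPolynomial.funext h1
    rcases mul_eq_zero.mp h2 with h | h
    · exact absurd h (MvPolynomial.X_ne_zero 1)
    · exact h
  apply Set.Finite.subset ((g.roots.toFinset.finite_toSet).preimage
    (f := fun k : ℕ => (k : ℂ)) (Nat.cast_injective.injOn))
  intro k hk
  simp only [Set.mem_preimage, Finset.mem_coe, Multiset.mem_toFinset]
  rw [Polynomial.mem_roots hg0, Polynomial.IsRoot, hgev]
  exact hk

/-- A nonzero form vanishes at `(k, k - 1)` for finitely many `k` only. -/
theorem finite_bad_two (F : MvPolynomial (Fin 2) ℂ) (hF : F ≠ 0) :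
    {k : ℕ | topVal F (k : ℂ) ((k : ℂ) - 1) = 0}.Finite := by
  set H := homogeneousComponent F.totalDegree F with hH
  have hH0 : H ≠ 0 := top_ne_zero F hF
  have hhom : H.IsHomogeneous F.totalDegree := homogeneousComponent_isHomogeneous _ _
  set g : Polynomial ℂ := linePoly H 1 0 1 (-1) with hg
  have hgev : ∀ t : ℂ, g.eval t = MvPolynomial.eval ![t, t - 1] H := by
    intro t
    rw [hg, eval_linePoly]
    congr 1
    congr 1
    ext i
    fin_cases i
    · simp
    · simp [sub_eq_add_neg]
  have hg0 : g ≠ 0 := by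
    intro h0
    apply hH0
    have h1 : ∀ x : Fin 2 → ℂ, MvPolynomial.eval x ((X 0 - X 1) * H)
        = MvPolynomial.eval x 0 := by
      intro x
      rw [map_mul, map_zero, map_sub, MvPolynomial.eval_X, MvPolynomial.eval_X]
      by_cases hy : x 0 - x 1 = 0
      · rw [hy, zero_mul]
      · have hx : x = ![(x 0 - x 1) * (x 0 / (x 0 - x 1)),
            (x 0 - x 1) * (x 0 / (x 0 - x 1) - 1)] := by
          ext i
          fin_cases i
          · simp; field_simp
          · simp; field_simp; ring
        have h2 := homog_eval_smul hhom (x 0 - x 1) (x 0 / (x 0 - x 1))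
          (x 0 / (x 0 - x 1) - 1)
        rw [← hx, ← hgev, h0] at h2
        rw [h2]
        simp
    have h2 := MvPolynomial.funext h1
    rcases mul_eq_zero.mp h2 with h | h
    · exfalso
      have h3 : (X 0 : MvPolynomial (Fin 2) ℂ) = X 1 := sub_eq_zero.mp h
      have := MvPolynomial.X_injective h3
      exact absurd this (by decide)
    · exact h
  apply Set.Finite.subset ((g.roots.toFinset.finite_toSet).preimage
    (f := fun k : ℕ => (k : ℂ)) (Nat.cast_injective.injOn))
  intro k hk
  simp only [Set.mem_preimage, Finset.mem_coe, Multiset.mem_toFinset]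
  rw [Polynomial.mem_roots hg0, Polynomial.IsRoot, hgev]
  exact hk

end Pool.Agent.ShorRec
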