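import Pool.Agent.ShorRec.Linear
import Pool.Agent.ShorRec.Growth
import Pool.Agent.ShorRec.Lines

/-!
Admissible pairs of polynomials with nonnegative values on the triangle.
-/

namespace Pool.Agent.ShorRec

open MvPolynomial

/-- The complex number `z` is a nonnegative real. -/
def NonnegReal (z : ℂ) : Prop := ∃ x : ℝ, 0 ≤ x ∧ z = x

theorem NonnegReal.norm_eq {z : ℂ} (h : NonnegReal z) : z = (‖z‖ : ℝ) := by
  obtain ⟨x, hx, rfl⟩ := h
  rw [Complex.norm_real, Real.norm_of_nonneg hx]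

theorem NonnegReal.zero : NonnegReal 0 := ⟨0, le_rfl, by simp⟩

theorem NonnegReal.one : NonnegReal 1 := ⟨1, zero_le_one, by simp⟩

theorem NonnegReal.mul {z w : ℂ} (hz : NonnegReal z) (hw : NonnegReal w) :
    NonnegReal (z * w) := by
  obtain ⟨x, hx, rfl⟩ := hz
  obtain ⟨y, hy, rfl⟩ := hw
  exact ⟨x * y, mul_nonneg hx hy, by push_cast; rfl⟩

theorem NonnegReal.add {z w : ℂ} (hz : NonnegReal z) (hw : NonnegReal w) :
    NonnegReal (z + w) := by
  obtain ⟨x, hx, rfl⟩ := hz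
  obtain ⟨y, hy, rfl⟩ := hw
  exact ⟨x + y, add_nonneg hx hy, by push_cast; rfl⟩

theorem NonnegReal.norm_add {z w : ℂ} (hz : NonnegReal z) (hw : NonnegReal w) :
    ‖z + w‖ = ‖z‖ + ‖w‖ := by
  obtain ⟨x, hx, rfl⟩ := hz
  obtain ⟨y, hy, rfl⟩ := hw
  rw [← Complex.ofReal_add, Complex.norm_real, Complex.norm_real, Complex.norm_real,
    Real.norm_of_nonneg hx, Real.norm_of_nonneg hy, Real.norm_of_nonneg (add_nonneg hx hy)]

/-- `P` and `Q` have nonnegative real values at all places that enter the triangle. -/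
def NonnegPair (P Q : MvPolynomial (Fin 2) ℂ) : Prop :=
  (∀ m n : ℕ, 1 ≤ n → n ≤ m → NonnegReal (val P m n)) ∧
  (∀ m n : ℕ, 1 ≤ n → n ≤ m + 1 → NonnegReal (val Q m n))

variable {P Q : MvPolynomial (Fin 2) ℂ}

theorem termP (h : NonnegPair P Q) (m n : ℕ) (hS : NonnegReal (S P Q m (n + 1))) :
    NonnegReal (val P m (n + 1) * S P Q m (n + 1)) := by
  by_cases hn : n + 1 ≤ m
  · exact (h.1 m (n + 1) (by omega) hn).mul hS
  · rw [S_eq_zero_of_lt P Q m (n + 1) (by omega), mul_zero]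
    exact NonnegReal.zero

theorem termQ (h : NonnegPair P Q) (m n : ℕ) (hS : NonnegReal (S P Q m n)) :
    NonnegReal (val Q m (n + 1) * S P Q m n) := by
  by_cases hn : n ≤ m
  · exact (h.2 m (n + 1) (by omega) (by omega)).mul hS
  · rw [S_eq_zero_of_lt P Q m n (by omega), mul_zero]
    exact NonnegReal.zero

theorem S_nonneg (h : NonnegPair P Q) : ∀ m n : ℕ, NonnegReal (S P Q m n) := by
  intro m
  induction m with
  | zero =>
    intro n
    cases n with
    | zero => rw [S_zero_zero]; exact NonnegReal.one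
    | succ n => rw [S_eq_zero_of_lt P Q 0 (n + 1) (by omega)]; exact NonnegReal.zero
  | succ m ih =>
    intro n
    cases n with
    | zero => rw [S_succ_zero]; exact NonnegReal.zero
    | succ n =>
      rw [S_succ_succ]
      exact (termP h m n (ih _)).add (termQ h m n (ih _))

theorem norm_S_ge_P (h : NonnegPair P Q) (m n : ℕ) :
    ‖val P m (n + 1)‖ * ‖S P Q m (n + 1)‖ ≤ ‖S P Q (m + 1) (n + 1)‖ := by
  rw [S_succ_succ, (termP h m n (S_nonneg h _ _)).norm_add (termQ h m n (S_nonneg h _ _)),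
    norm_mul, norm_mul]
  have : 0 ≤ ‖val Q m (n + 1)‖ * ‖S P Q m n‖ := by positivity
  linarith

theorem norm_S_ge_Q (h : NonnegPair P Q) (m n : ℕ) :
    ‖val Q m (n + 1)‖ * ‖S P Q m n‖ ≤ ‖S P Q (m + 1) (n + 1)‖ := by
  rw [S_succ_succ, (termP h m n (S_nonneg h _ _)).norm_add (termQ h m n (S_nonneg h _ _)),
    norm_mul, norm_mul]
  have : 0 ≤ ‖val P m (n + 1)‖ * ‖S P Q m (n + 1)‖ := by positivity
  linarith

theorem norm_S_le (h : NonnegPair P Q) (hA : Admissible P Q) (m n : ℕ) (h1 : 1 ≤ n)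
    (h2 : n ≤ m) : ‖S P Q m n‖ ≤ (m : ℝ) ^ m := by
  have hm : 1 ≤ m := h1.trans h2
  have hsum := hA m hm
  have h3 : (∑ k ∈ Finset.Icc 1 m, ‖S P Q m k‖ : ℝ) = (m : ℝ) ^ m := by
    have : ((∑ k ∈ Finset.Icc 1 m, ‖S P Q m k‖ : ℝ) : ℂ) = ((m : ℝ) ^ m : ℝ) := by
      push_cast
      rw [← hsum]
      apply Finset.sum_congr rfl
      intro k _
      exact ((S_nonneg h m k).norm_eq).symm
    exact_mod_cast this
  rw [← h3]
  exact Finset.single_le_sum (f := fun k => ‖S P Q m k‖) (fun k _ => norm_nonneg _)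
    (Finset.mem_Icc.mpr ⟨h1, h2⟩)

/-- A vertical run of steps. -/
theorem run_P (h : NonnegPair P Q) (m n : ℕ) (i : ℕ) :
    (∏ j ∈ Finset.range i, ‖val P (m + j) (n + 1)‖) * ‖S P Q m (n + 1)‖ ≤
      ‖S P Q (m + i) (n + 1)‖ := by
  induction i with
  | zero => simp
  | succ i ih =>
    rw [Finset.prod_range_succ]
    have h1 := norm_S_ge_P h (m + i) n
    calc (∏ j ∈ Finset.range i, ‖val P (m + j) (n + 1)‖) * ‖val P (m + i) (n + 1)‖ *
          ‖S P Q m (n + 1)‖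
        = ‖val P (m + i) (n + 1)‖ *
          ((∏ j ∈ Finset.range i, ‖val P (m + j) (n + 1)‖) * ‖S P Q m (n + 1)‖) := by ring
      _ ≤ ‖val P (m + i) (n + 1)‖ * ‖S P Q (m + i) (n + 1)‖ :=
          mul_le_mul_of_nonneg_left ih (norm_nonneg _)
      _ ≤ ‖S P Q (m + (i + 1)) (n + 1)‖ := h1

/-- A diagonal run of steps. -/
theorem run_Q (h : NonnegPair P Q) (m n : ℕ) (i : ℕ) :
    (∏ j ∈ Finset.range i, ‖val Q (m + j) (n + j + 1)‖) * ‖S P Q m n‖ ≤
      ‖S P Q (m + i) (n + i)‖ := by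
  induction i with
  | zero => simp
  | succ i ih =>
    rw [Finset.prod_range_succ]
    have h1 := norm_S_ge_Q h (m + i) (n + i)
    calc (∏ j ∈ Finset.range i, ‖val Q (m + j) (n + j + 1)‖) * ‖val Q (m + i) (n + i + 1)‖ *
          ‖S P Q m n‖
        = ‖val Q (m + i) (n + i + 1)‖ *
          ((∏ j ∈ Finset.range i, ‖val Q (m + j) (n + j + 1)‖) * ‖S P Q m n‖) := by ring
      _ ≤ ‖val Q (m + i) (n + i + 1)‖ * ‖S P Q (m + i) (n + i)‖ :=
          mul_le_mul_of_nonneg_left ih (norm_nonneg _)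
      _ ≤ ‖S P Q (m + (i + 1)) (n + (i + 1))‖ := h1

theorem val_eq_eval_line (F : MvPolynomial (Fin 2) ℂ) (α β γ δ : ℂ) (t m n : ℕ)
    (hm : (m : ℂ) = α * t + β) (hn : (n : ℂ) = γ * t + δ) :
    val F m n = (linePoly F α β γ δ).eval (t : ℂ) := by
  rw [eval_linePoly, val, hm, hn]

theorem P_ne_zero {N : ℕ} (hS : ∀ m n : ℕ, N ≤ m → 1 ≤ n → n ≤ m → S P Q m n ≠ 0) :
    P ≠ 0 := by
  rintro rfl
  have h := hS (N + 2) 1 (by omega) le_rfl (by omega)
  apply h
  have : S (0 : MvPolynomial (Fin 2) ℂ) Q (N + 2) 1 = _ := S_succ_succ 0 Q (N + 1) 0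
  rw [this, S_succ_zero]
  simp [val]

theorem Q_ne_zero {N : ℕ} (hS : ∀ m n : ℕ, N ≤ m → 1 ≤ n → n ≤ m → S P Q m n ≠ 0) :
    Q ≠ 0 := by
  rintro rfl
  have h0 : ∀ m : ℕ, S P (0 : MvPolynomial (Fin 2) ℂ) (m + 1) 1 = 0 := by
    intro m
    induction m with
    | zero =>
      have : S P (0 : MvPolynomial (Fin 2) ℂ) 1 1 = _ := S_succ_succ P 0 0 0
      rw [this, S_eq_zero_of_lt P 0 0 1 (by norm_num)]
      simp [val]
    | succ m ih =>
      have : S P (0 : MvPolynomial (Fin 2) ℂ) (m + 1 + 1) 1 = _ := S_succ_succ P 0 (m + 1) 0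
      rw [this]
      simp only [zero_add]
      rw [ih]
      simp [val]
  exact hS (N + 1) 1 (by omega) le_rfl (by omega) (h0 N)

/-- The degree of `P` is at most one. -/
theorem degree_P_le (h : NonnegPair P Q) {N : ℕ}
    (hS : ∀ m n : ℕ, N ≤ m → 1 ≤ n → n ≤ m → S P Q m n ≠ 0)
    (hA : Admissible P Q) : P.totalDegree ≤ 1 := by
  by_contra hcon
  have hd : 2 ≤ P.totalDegree := by omega
  obtain ⟨k, hk⟩ : ∃ k : ℕ, 3 ≤ k ∧ topVal P k 1 ≠ 0 ∧ topVal Q k 1 ≠ 0 := by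
    have hfin := ((finite_bad_one P (P_ne_zero hS)).union
      (finite_bad_one Q (Q_ne_zero hS))).union (Set.finite_lt_nat 3)
    obtain ⟨k, hk⟩ := hfin.exists_notMem
    simp only [Set.mem_union, Set.mem_ofPred_eq, not_or, not_lt] at hk
    exact ⟨k, hk.2, hk.1.1, hk.1.2⟩
  obtain ⟨hk3, hkP, hkQ⟩ := hk
  set RP : ℕ → Polynomial ℂ := fun i => linePoly P k i 1 0 with hRP
  set RQ : Polynomial ℂ := linePoly Q k ((k - 1 : ℕ) : ℂ) 1 1 with hRQ
  set R : Polynomial ℂ := (∏ i ∈ Finset.range (k - 1), RP i) * RQ with hR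
  have hRPne : ∀ i ∈ Finset.range (k - 1), RP i ≠ 0 := fun i _ => linePoly_ne_zero P _ _ _ _ hkP
  have hRQne : RQ ≠ 0 := linePoly_ne_zero Q _ _ _ _ hkQ
  have hdegR : k + 1 ≤ R.natDegree := by
    rw [hR, Polynomial.natDegree_mul (Finset.prod_ne_zero_iff.mpr hRPne) hRQne,
      Polynomial.natDegree_prod _ _ hRPne]
    have h1 : (k - 1) * 2 ≤ ∑ i ∈ Finset.range (k - 1), (RP i).natDegree := by
      have : ∑ _i ∈ Finset.range (k - 1), 2 ≤ ∑ i ∈ Finset.range (k - 1), (RP i).natDegree :=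
        Finset.sum_le_sum (fun i _ => hd.trans (natDegree_linePoly_ge P _ _ _ _ hkP))
      simpa using this
    omega
  refine growth_contradiction k (N + 1) (by omega) R hdegR (fun t => ‖S P Q (k * t) t‖) ?_ ?_ ?_
  · intro t ht
    exact norm_pos_iff.mpr (hS _ _ (by nlinarith) (by omega) (by nlinarith))
  · intro t ht
    exact norm_S_le h hA _ _ (by omega) (by nlinarith)
  · intro t ht
    obtain ⟨n, rfl⟩ : ∃ n, t = n + 1 := ⟨t - 1, by omega⟩
    have h1 := run_P h (k * (n + 1)) n (k - 1)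
    have h2 := norm_S_ge_Q h (k * (n + 1) + (k - 1)) (n + 1)
    have e1 : k * (n + 1) + (k - 1) + 1 = k * (n + 1 + 1) := by
      rw [mul_add k (n + 1) 1]
      omega
    rw [e1] at h2
    have e2 : ‖R.eval ((n + 1 : ℕ) : ℂ)‖ =
        (∏ j ∈ Finset.range (k - 1), ‖val P (k * (n + 1) + j) (n + 1)‖) *
          ‖val Q (k * (n + 1) + (k - 1)) (n + 1 + 1)‖ := by
      rw [hR, Polynomial.eval_mul, norm_mul, Polynomial.eval_prod, norm_prod]
      congr 1
      · apply Finset.prod_congr rfl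
        intro j _
        congr 1
        rw [hRP]
        symm
        apply val_eq_eval_line
        · push_cast; ring
        · push_cast; ring
      · congr 1
        rw [hRQ]
        symm
        apply val_eq_eval_line
        · push_cast; ring
        · push_cast; ring
    show ‖R.eval ((n + 1 : ℕ) : ℂ)‖ * ‖S P Q (k * (n + 1)) (n + 1)‖ ≤
      ‖S P Q (k * (n + 1 + 1)) (n + 1 + 1)‖
    rw [e2]
    calc (∏ j ∈ Finset.range (k - 1), ‖val P (k * (n + 1) + j) (n + 1)‖) *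
          ‖val Q (k * (n + 1) + (k - 1)) (n + 1 + 1)‖ * ‖S P Q (k * (n + 1)) (n + 1)‖
        = ‖val Q (k * (n + 1) + (k - 1)) (n + 1 + 1)‖ *
          ((∏ j ∈ Finset.range (k - 1), ‖val P (k * (n + 1) + j) (n + 1)‖) *
            ‖S P Q (k * (n + 1)) (n + 1)‖) := by ring
      _ ≤ ‖val Q (k * (n + 1) + (k - 1)) (n + 1 + 1)‖ *
          ‖S P Q (k * (n + 1) + (k - 1)) (n + 1)‖ :=
          mul_le_mul_of_nonneg_left h1 (norm_nonneg _)
      _ ≤ _ := h2

/-- The degree of `Q` is at most one. -/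
theorem degree_Q_le (h : NonnegPair P Q) {N : ℕ}
    (hS : ∀ m n : ℕ, N ≤ m → 1 ≤ n → n ≤ m → S P Q m n ≠ 0)
    (hA : Admissible P Q) : Q.totalDegree ≤ 1 := by
  by_contra hcon
  have hd : 2 ≤ Q.totalDegree := by omega
  obtain ⟨k, hk⟩ : ∃ k : ℕ, 3 ≤ k ∧ topVal P k ((k : ℂ) - 1) ≠ 0 ∧
      topVal Q k ((k : ℂ) - 1) ≠ 0 := by
    have hfin := ((finite_bad_two P (P_ne_zero hS)).union
      (finite_bad_two Q (Q_ne_zero hS))).union (Set.finite_lt_nat 3)
    obtain ⟨k, hk⟩ := hfin.exists_notMem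
    simp only [Set.mem_union, Set.mem_ofPred_eq, not_or, not_lt] at hk
    exact ⟨k, hk.2, hk.1.1, hk.1.2⟩
  obtain ⟨hk3, hkP, hkQ⟩ := hk
  set RQ : ℕ → Polynomial ℂ := fun i => linePoly Q k (1 + i) ((k : ℂ) - 1) (i + 1) with hRQ
  set RP : Polynomial ℂ := linePoly P k 0 ((k : ℂ) - 1) 0 with hRP
  set R : Polynomial ℂ := (∏ i ∈ Finset.range (k - 1), RQ i) * RP with hR
  have hRQne : ∀ i ∈ Finset.range (k - 1), RQ i ≠ 0 := fun i _ => linePoly_ne_zero Q _ _ _ _ hkQ
  have hRPne : RP ≠ 0 := linePoly_ne_zero P _ _ _ _ hkP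
  have hdegR : k + 1 ≤ R.natDegree := by
    rw [hR, Polynomial.natDegree_mul (Finset.prod_ne_zero_iff.mpr hRQne) hRPne,
      Polynomial.natDegree_prod _ _ hRQne]
    have h1 : (k - 1) * 2 ≤ ∑ i ∈ Finset.range (k - 1), (RQ i).natDegree := by
      have : ∑ _i ∈ Finset.range (k - 1), 2 ≤ ∑ i ∈ Finset.range (k - 1), (RQ i).natDegree :=
        Finset.sum_le_sum (fun i _ => hd.trans (natDegree_linePoly_ge Q _ _ _ _ hkQ))
      simpa using this
    omega
  have hk1 : ((k - 1 : ℕ) : ℂ) = (k : ℂ) - 1 := by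
    rw [Nat.cast_sub (by omega)]
    simp
  refine growth_contradiction k (N + 1) (by omega) R hdegR
    (fun t => ‖S P Q (k * t) ((k - 1) * t)‖) ?_ ?_ ?_
  · intro t ht
    refine norm_pos_iff.mpr (hS _ _ ?_ ?_ ?_)
    · nlinarith
    · exact Nat.mul_pos (by omega) (by omega)
    · exact Nat.mul_le_mul_right t (by omega)
  · intro t ht
    refine norm_S_le h hA _ _ ?_ ?_
    · exact Nat.mul_pos (by omega) (by omega)
    · exact Nat.mul_le_mul_right t (by omega)
  · intro t ht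
    obtain ⟨n, hn⟩ : ∃ n, (k - 1) * t = n + 1 :=
      ⟨(k - 1) * t - 1, by have := Nat.mul_pos (show 0 < k - 1 by omega) (show 0 < t by omega); omega⟩
    have h1 := norm_S_ge_P h (k * t) n
    have h2 := run_Q h (k * t + 1) (n + 1) (k - 1)
    have e1 : k * t + 1 + (k - 1) = k * (t + 1) := by
      rw [mul_add]
      omega
    have e1' : n + 1 + (k - 1) = (k - 1) * (t + 1) := by
      rw [← hn]
      ring
    rw [e1, e1'] at h2
    have e2 : ‖R.eval (t : ℂ)‖ =
        (∏ j ∈ Finset.range (k - 1), ‖val Q (k * t + 1 + j) (n + 1 + j + 1)‖) *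
          ‖val P (k * t) (n + 1)‖ := by
      have hn' : ((n : ℂ) + 1) = ((k : ℂ) - 1) * t := by
        rw [← hk1]
        exact_mod_cast hn.symm
      rw [hR, Polynomial.eval_mul, norm_mul, Polynomial.eval_prod, norm_prod]
      congr 1
      · apply Finset.prod_congr rfl
        intro j _
        congr 1
        rw [hRQ]
        symm
        apply val_eq_eval_line
        · push_cast; ring
        · push_cast
          linear_combination hn'
      · congr 1
        rw [hRP]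
        symm
        apply val_eq_eval_line
        · push_cast; ring
        · push_cast
          linear_combination hn'
    show ‖R.eval (t : ℂ)‖ * ‖S P Q (k * t) ((k - 1) * t)‖ ≤
      ‖S P Q (k * (t + 1)) ((k - 1) * (t + 1))‖
    rw [e2, hn]
    calc (∏ j ∈ Finset.range (k - 1), ‖val Q (k * t + 1 + j) (n + 1 + j + 1)‖) *
          ‖val P (k * t) (n + 1)‖ * ‖S P Q (k * t) (n + 1)‖
        = (∏ j ∈ Finset.range (k - 1), ‖val Q (k * t + 1 + j) (n + 1 + j + 1)‖) *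
          (‖val P (k * t) (n + 1)‖ * ‖S P Q (k * t) (n + 1)‖) := by ring
      _ ≤ (∏ j ∈ Finset.range (k - 1), ‖val Q (k * t + 1 + j) (n + 1 + j + 1)‖) *
          ‖S P Q (k * t + 1) (n + 1)‖ := by
          apply mul_le_mul_of_nonneg_left h1
          exact Finset.prod_nonneg (fun _ _ => norm_nonneg _)
      _ ≤ _ := h2

theorem nonneg_unique (h : NonnegPair P Q) {N : ℕ}
    (hS : ∀ m n : ℕ, N ≤ m → 1 ≤ n → n ≤ m → S P Q m n ≠ 0)
    (hA : Admissible P Q) : P = X 0 ∧ Q = X 0 + X 1 :=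
  linear_unique (degree_P_le h hS hA) (degree_Q_le h hS hA) hA

end Pool.Agent.ShorRec
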